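import Mathlib

set_option linter.unusedSectionVars false

open MeasureTheory Set Filter Topology
open scoped Pointwise ENNReal

namespace Pool.Agent.Lib.MP_390819_lc

/-- `G` is covered by translates, indexed by `ι`, of one compact null set. -/
def Cov (G : Type) [Group G] [TopologicalSpace G] [MeasurableSpace G] (μ : Measure G)
    (ι : Type) : Prop :=
  ∃ C : Set G, IsCompact C ∧ μ C = 0 ∧ ∃ a : ι → G, ∀ x, ∃ i, (a i)⁻¹ * x ∈ C

/-- A levelwise covering system in finite abelian groups killed by `p`. -/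
def Sys (p : ℕ) (θ : ℝ) (ι : Type) : Prop :=
  ∃ (Γ : ℕ → Type) (_ : ∀ n, AddCommGroup (Γ n)) (_ : ∀ n, Fintype (Γ n))
    (T : ∀ n, Finset (Γ n)) (A : ι → ∀ n, Γ n),
    (∀ n (x : Γ n), p • x = 0) ∧ (∀ n, ((T n).card : ℝ) ≤ θ * Fintype.card (Γ n)) ∧
      ∀ ξ : ∀ n, Γ n, ∃ j, ∀ n, ξ n - A j n ∈ T n

theorem exists_seq {σ : Type*} (P : σ → Prop) (R : ℕ → σ → σ → Prop)
    (h : ∀ n s, P s → ∃ s', P s' ∧ R n s s') (s₀ : σ) (h₀ : P s₀) :
    ∃ f : ℕ → σ, f 0 = s₀ ∧ ∀ n, P (f n) ∧ R n (f n) (f (n + 1)) := by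
  choose F hF using h
  let g : ℕ → {s // P s} := fun n =>
    Nat.rec ⟨s₀, h₀⟩ (fun n s => ⟨F n s.1 s.2, (hF n s.1 s.2).1⟩) n
  exact ⟨fun n => (g n).1, rfl, fun n => ⟨(g n).2, (hF n (g n).1 (g n).2).2⟩⟩

/-- ordered partial products -/
def pp {G : Type*} [Monoid G] (u : ℕ → G) : ℕ → G
  | 0 => 1
  | n + 1 => pp u n * u n

section Top
variable {G : Type} [Group G] [TopologicalSpace G] [IsTopologicalGroup G]

theorem exists_limit [T2Space G] (W : ℕ → Set G) (hW : ∀ n, IsCompact (W n))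
    (hne : ∀ n, (W n).Nonempty) (u : ℕ → G) (hu : ∀ n, ∀ w ∈ W (n + 1), u n * w ∈ W n) :
    ∃ β : G, ∀ n, (pp u n)⁻¹ * β ∈ W n := by
  let t : ℕ → Set G := fun n => (fun w => pp u n * w) '' W n
  have hc : ∀ n, IsCompact (t n) := fun n => (hW n).image (by fun_prop)
  obtain ⟨β, hβ⟩ := IsCompact.nonempty_iInter_of_sequence_nonempty_isCompact_isClosed t
    (by
      rintro n _ ⟨w, hw, rfl⟩
      exact ⟨u n * w, hu n w hw, by simp [pp, mul_assoc]⟩)
    (fun n => (hne n).image _) (hc 0) (fun n => (hc n).isClosed)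
  refine ⟨β, fun n => ?_⟩
  obtain ⟨w, hw, h⟩ := mem_iInter.1 hβ n
  rw [← h]; simpa using hw

/-- a compact symmetric neighbourhood whose fourfold products lie in a given one -/
theorem exists_nice [LocallyCompactSpace G] {U : Set G} (hU : U ∈ 𝓝 (1 : G)) :
    ∃ V ∈ 𝓝 (1 : G), IsCompact V ∧ (∀ x ∈ V, x⁻¹ ∈ V) ∧
      ∀ a ∈ V, ∀ b ∈ V, ∀ c ∈ V, ∀ d ∈ V, a * b * c * d ∈ U := by
  obtain ⟨K, hK, hKU, hKc⟩ := local_compact_nhds hU
  obtain ⟨V₁, hV₁, -, -, h₁⟩ := exists_closed_nhds_one_inv_eq_mul_subset hK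
  obtain ⟨V, hV, hVc, hVi, h₂⟩ := exists_closed_nhds_one_inv_eq_mul_subset hV₁
  have h1 : (1 : G) ∈ V := mem_of_mem_nhds hV
  have key : ∀ a ∈ V, ∀ b ∈ V, ∀ c ∈ V, ∀ d ∈ V, a * b * c * d ∈ K := by
    intro a ha b hb c hc d hd
    rw [mul_assoc (a * b)]
    exact h₁ (mul_mem_mul (h₂ (mul_mem_mul ha hb)) (h₂ (mul_mem_mul hc hd)))
  refine ⟨V, hV, hKc.of_isClosed_subset hVc fun x hx => ?_, fun x hx => ?_,
    fun a ha b hb c hc d hd => hKU (key a ha b hb c hc d hd)⟩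
  · simpa using key x hx 1 h1 1 h1 1 h1
  · rw [← hVi]; simpa using hx

/-- finite left nets -/
theorem exists_net {K : Set G} (hK : IsCompact K) {V : Set G} (hV : V ∈ 𝓝 (1 : G)) :
    ∃ s : Finset G, (∀ x ∈ s, x ∈ K) ∧ ∀ y ∈ K, ∃ x ∈ s, x⁻¹ * y ∈ V := by
  obtain ⟨s, hs, hcov⟩ := hK.elim_nhds_subcover (fun x => (fun y => x⁻¹ * y) ⁻¹' V)
    (fun x _ => (continuous_const.mul continuous_id).continuousAt.preimage_mem_nhds
      (by simpa using hV))
  refine ⟨s, hs, fun y hy => ?_⟩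
  simpa using hcov hy

/-- finite right nets -/
theorem exists_net_right {K : Set G} (hK : IsCompact K) {V : Set G} (hV : V ∈ 𝓝 (1 : G)) :
    ∃ s : Finset G, (∀ x ∈ s, x ∈ K) ∧ ∀ y ∈ K, ∃ x ∈ s, y * x⁻¹ ∈ V := by
  obtain ⟨s, hs, hcov⟩ := hK.elim_nhds_subcover (fun x => (fun y => y * x⁻¹) ⁻¹' V)
    (fun x _ => (continuous_id.mul continuous_const).continuousAt.preimage_mem_nhds
      (by simpa using hV))
  refine ⟨s, hs, fun y hy => ?_⟩
  simpa using hcov hy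

theorem conj_nhds (g : G) {V : Set G} (hV : V ∈ 𝓝 (1 : G)) :
    {h | g * h * g⁻¹ ∈ V} ∈ 𝓝 (1 : G) := by
  have : Continuous fun h : G => g * h * g⁻¹ := by fun_prop
  exact this.continuousAt.preimage_mem_nhds (by simpa using hV)

variable [MeasurableSpace G] [BorelSpace G] (μ : Measure G) [μ.IsHaarMeasure] [μ.Regular]

theorem exists_thick_right [T2Space G] [LocallyCompactSpace G] {C : Set G} (hC : IsCompact C) (h0 : μ C = 0) {η : ℝ}
    (hη : 0 < η) : ∃ O : Set G, IsOpen O ∧ μ O ≠ ⊤ ∧ μ.real O ≤ η ∧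
      ∃ V ∈ 𝓝 (1 : G), ∀ c ∈ C, ∀ v ∈ V, c * v ∈ O := by
  obtain ⟨O, hCO, hO, hμ⟩ := hC.exists_isOpen_lt_of_lt (μ := μ) (ENNReal.ofReal η)
    (by rw [h0]; simpa using hη)
  obtain ⟨V, hV, h⟩ := compact_open_separated_mul_right hC hO hCO
  refine ⟨O, hO, (hμ.trans ENNReal.ofReal_lt_top).ne, ?_, V, hV,
    fun c hc v hv => h (mul_mem_mul hc hv)⟩
  exact ENNReal.toReal_le_of_le_ofReal hη.le hμ.le

omit [μ.Regular] in
theorem real_pos_of_nhds {V : Set G} (hV : V ∈ 𝓝 (1 : G)) (hc : IsCompact V) : 0 < μ.real V :=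
  ENNReal.toReal_pos (Measure.measure_pos_of_mem_nhds μ hV).ne' hc.measure_lt_top.ne

omit [μ.Regular] in
theorem real_preimage_mul (g : G) (O : Set G) : μ.real {x | g * x ∈ O} = μ.real O := by
  have := measure_preimage_mul μ g O
  simp only [Measure.real]
  rw [← this]; rfl

omit [μ.Regular] in
theorem preimage_mul_ne_top (g : G) {O : Set G} (h : μ O ≠ ⊤) : μ {x | g * x ∈ O} ≠ ⊤ := by
  have := measure_preimage_mul μ g O
  rw [← this] at h; exact h

end Top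

/-- averaging: a point of `V` lying in few of the sets `E i` -/
theorem exists_few {X : Type*} [MeasurableSpace X] (μ : Measure X) {V : Set X}
    (hV0 : 0 < μ.real V) {ι : Type*} (s : Finset ι) (E : ι → Set X)
    (hE : ∀ i, MeasurableSet (E i)) (hEf : ∀ i, μ (E i) ≠ ⊤) {θ : ℝ}
    (hθ : ∀ i ∈ s, μ.real (E i) ≤ θ * μ.real V) [∀ c i, Decidable (c ∈ E i)] :
    ∃ c ∈ V, ((s.filter fun i => c ∈ E i).card : ℝ) ≤ θ * s.card := by
  have hVf : μ V ≠ ⊤ := by
    intro h; simp [Measure.real, h] at hV0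
  have hV0' : μ V ≠ 0 := by
    intro h; simp [Measure.real, h] at hV0
  let F : X → ℝ := fun c => ∑ i ∈ s, (E i).indicator (fun _ => (1 : ℝ)) c
  have hint : ∀ i ∈ s, Integrable ((E i).indicator (fun _ => (1 : ℝ))) (μ.restrict V) := by
    intro i _
    exact ((integrable_indicator_iff (hE i)).2 (integrableOn_const (hEf i))).restrict
  have hFi : IntegrableOn F V μ := integrable_finsetSum _ hint
  obtain ⟨c, hc, hle⟩ := exists_le_setAverage hV0' hVf hFi
  refine ⟨c, hc, ?_⟩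
  have h1 : F c = ((s.filter fun i => c ∈ E i).card : ℝ) := by
    simp only [F, indicator]
    rw [Finset.sum_ite]; simp
  rw [← h1]
  refine hle.trans ?_
  rw [setAverage_eq, smul_eq_mul, inv_mul_le_iff₀ hV0]
  have : ∫ x in V, F x ∂μ ≤ ∑ i ∈ s, θ * μ.real V := by
    simp only [F]
    rw [integral_finsetSum _ hint]
    refine Finset.sum_le_sum fun i hi => le_trans ?_ (hθ i hi)
    rw [integral_indicator (hE i)]
    simp only [integral_const, smul_eq_mul, mul_one]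
    rw [measureReal_restrict_apply_univ, measureReal_restrict_apply (hE i)]
    exact measureReal_mono inter_subset_left (hEf i)
  refine this.trans (le_of_eq ?_)
  simp; ring

end Pool.Agent.Lib.MP_390819_lc
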