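import Pool.Agent.Lib.MP_390819_lc.Conv

set_option linter.unusedSectionVars false
set_option linter.overlappingInstances false

open MeasureTheory Set Filter Topology
open scoped Pointwise ENNReal

namespace Pool.Agent.Lib.MP_390819_lc

theorem logconvex_growth (s : ℕ → ℝ) (h0 : ∀ k, 0 ≤ s k)
    (h : ∀ k, s (k + 1) ^ 2 ≤ s k * s (k + 2)) (h1 : 0 < s 1) (k : ℕ) :
    0 < s 0 ∧ s 0 * (s 1 / s 0) ^ k ≤ s k := by
  have hpos : ∀ k, 0 < s (k + 1) := by
    intro k
    induction k with
    | zero => exact h1
    | succ k ih =>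
      have := (pow_pos ih 2).trans_le (h k)
      exact (pos_iff_pos_of_mul_pos this).1 ((h0 k).lt_of_ne fun h' => by
        rw [← h'] at this; simp at this)
  have hs0 : 0 < s 0 := by
    have := (pow_pos h1 2).trans_le (h 0)
    rcases (h0 0).lt_or_eq with h' | h'
    · exact h'
    · rw [← h'] at this; simp at this
  have hr : ∀ k, s 1 * s k ≤ s 0 * s (k + 1) := by
    intro k
    induction k with
    | zero => rw [mul_comm]
    | succ k ih =>
      have hk : 0 < s k := by cases k with
        | zero => exact hs0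
        | succ k => exact hpos k
      refine le_of_mul_le_mul_left ?_ hk
      have h2 := mul_le_mul_of_nonneg_left (h k) hs0.le
      have h3 := mul_le_mul_of_nonneg_right ih (h0 (k + 1))
      nlinarith
  refine ⟨hs0, ?_⟩
  induction k with
  | zero => simp
  | succ k ih =>
    rw [pow_succ, ← mul_assoc]
    refine (mul_le_mul_of_nonneg_right ih (by positivity)).trans ?_
    rw [mul_div_assoc', div_le_iff₀ hs0]
    have := hr k
    linarith

section
variable {K : Type} [Group K] [TopologicalSpace K] [IsTopologicalGroup K] [CompactSpace K]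
  [T2Space K] [SecondCountableTopology K] [MeasurableSpace K] [BorelSpace K]
  (μ : Measure K) [μ.IsHaarMeasure]

theorem int_cont {f : K → ℝ} (hf : Continuous f) : Integrable f μ :=
  hf.integrable_of_hasCompactSupport (HasCompactSupport.of_compactSpace f)

theorem cauchy_schwarz {f g : K → ℝ} (hf : Continuous f) (hg : Continuous g) :
    (∫ x, f x * g x ∂μ) ^ 2 ≤ (∫ x, f x * f x ∂μ) * ∫ x, g x * g x ∂μ := by
  have := discrim_le_zero (a := ∫ x, f x * f x ∂μ) (b := 2 * ∫ x, f x * g x ∂μ)
    (c := ∫ x, g x * g x ∂μ) (fun t => by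
      have h1 : 0 ≤ ∫ x, (t * f x + g x) * (t * f x + g x) ∂μ :=
        integral_nonneg fun x => mul_self_nonneg _
      have h2 : ∀ x, (t * f x + g x) * (t * f x + g x) =
          (t * t) * (f x * f x) + (2 * t) * (f x * g x) + g x * g x := fun x => by ring
      simp only [h2] at h1
      rw [integral_add (int_cont μ (by fun_prop)) (int_cont μ (by fun_prop)),
        integral_add (int_cont μ (by fun_prop)) (int_cont μ (by fun_prop)),
        integral_const_mul, integral_const_mul] at h1
      linarith)
  rw [discrim] at this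
  nlinarith

theorem cv_cont {σ F : K → ℝ} (hσ : Continuous σ) (hF : Continuous F) :
    Continuous (cv μ σ F) := by
  have := continuous_parametric_integral_of_continuous (μ := μ)
    (f := fun x y : K => F y * σ (x⁻¹ * y)) (by unfold Function.uncurry; fun_prop) isCompact_univ
  simp only [Measure.restrict_univ] at this
  exact this

theorem cv_symm {σ F F' : K → ℝ} (hσ : Continuous σ) (hσi : ∀ x, σ x⁻¹ = σ x) (hF : Continuous F)
    (hF' : Continuous F') : ∫ x, cv μ σ F x * F' x ∂μ = ∫ x, F x * cv μ σ F' x ∂μ := by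
  unfold cv
  simp only [← integral_mul_const, ← integral_const_mul]
  rw [integral_integral_swap_of_hasCompactSupport (by unfold Function.uncurry; fun_prop)
    (HasCompactSupport.of_compactSpace _)]
  congr 1; ext y; congr 1; ext x
  rw [← hσi (x⁻¹ * y)]; simp; ring

include μ in
theorem compact_trivial {m : ℕ} (hm : 0 < m) {V₀ : Set K} (hV₀ : V₀ ∈ 𝓝 (1 : K))
    (hexp : ∀ g ∈ V₀, g ^ m = 1) (hconn : ∀ H : Subgroup K, IsOpen (H : Set K) → H = ⊤) (g₀ : K) :
    g₀ = 1 := by
  by_contra hne
  obtain ⟨u, hu1, hu0, -, -⟩ := exists_continuous_one_zero_of_isCompact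
    (isCompact_singleton (x := (1 : K))) (t := {g₀, g₀⁻¹}) (toFinite _).isClosed (by
      simp [Ne.symm hne, hne])
  let σ : K → ℝ := fun x => u x + u x⁻¹
  have hσ : Continuous σ := by fun_prop
  have hσi : ∀ x, σ x⁻¹ = σ x := fun x => by simp [σ, add_comm]
  have hσc : HasCompactSupport σ := HasCompactSupport.of_compactSpace σ
  have hM : 0 < μ.real univ := real_pos_of_nhds μ univ_mem isCompact_univ
  set c := (∫ x, σ x ∂μ) / μ.real univ with hc
  let F : ℕ → K → ℝ := fun k => (cv μ σ)^[k] fun x => σ x - c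
  have hFs : ∀ k, F (k + 1) = cv μ σ (F k) := fun k => Function.iterate_succ_apply' _ _ _
  have hFc : ∀ k, Continuous (F k) := by
    intro k
    induction k with
    | zero => change Continuous fun x => σ x - c; fun_prop
    | succ k ih => rw [hFs]; exact cv_cont μ hσ ih
  have hF0 : ∀ k, ∫ x, F k x ∂μ = 0 := by
    intro k
    induction k with
    | zero =>
      change ∫ x, (σ x - c) ∂μ = 0
      rw [integral_sub (int_cont μ hσ) (int_cont μ continuous_const), hc]
      simp only [integral_const, smul_eq_mul]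
      field_simp; ring
    | succ k ih =>
      have := cv_symm μ hσ hσi (hFc k) (continuous_const (y := (1 : ℝ)))
      simp only [mul_one] at this
      rw [hFs, this]
      have h2 : ∀ x, cv μ σ (fun _ => 1) x = ∫ y, σ y ∂μ := fun x => by
        simp only [cv, one_mul]; exact integral_mul_left_eq_self σ x⁻¹
      simp only [h2, integral_mul_const, ih, zero_mul]
  let s : ℕ → ℝ := fun k => ∫ x, F k x * F k x ∂μ
  have hs0 : ∀ k, 0 ≤ s k := fun k => integral_nonneg fun x => mul_self_nonneg _
  have hsc : ∀ k, s (k + 1) ^ 2 ≤ s k * s (k + 2) := by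
    intro k
    have := cv_symm μ hσ hσi (hFc k) (hFc (k + 1))
    rw [← hFs, ← hFs] at this
    simp only [s]
    rw [this]
    exact cauchy_schwarz μ (hFc k) (hFc (k + 2))
  have hs1 : 0 < s 1 := by
    have h1 : F 1 1 = s 0 := by
      have h2 : ∀ x, F 0 x * F 0 x = F 0 x * σ x - c * F 0 x := fun x => by
        change (σ x - c) * (σ x - c) = (σ x - c) * σ x - c * (σ x - c); ring
      simp only [s, h2]
      rw [integral_sub (f := fun x => F 0 x * σ x) (g := fun x => c * F 0 x)
        (int_cont μ ((hFc 0).mul hσ)) (int_cont μ (continuous_const.mul (hFc 0))),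
        integral_const_mul, hF0, hFs]
      simp [cv]
    have h3 : ∃ x, F 0 x ≠ 0 := by
      by_contra hcon
      push Not at hcon
      have a1 : σ 1 - c = 0 := hcon 1
      have a2 : σ g₀ - c = 0 := hcon g₀
      have b1 : u 1 = 1 := hu1 rfl
      have b2 : u g₀ = 0 := hu0 (Or.inl rfl)
      have b3 : u g₀⁻¹ = 0 := hu0 (Or.inr rfl)
      simp only [σ, inv_one, b1, b2, b3] at a1 a2
      linarith
    obtain ⟨x, hx⟩ := h3
    have h4 : 0 < s 0 := ((hFc 0).mul (hFc 0)).integral_pos_of_hasCompactSupport_nonneg_nonzero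
      (HasCompactSupport.of_compactSpace _) (fun x => mul_self_nonneg _) (mul_ne_zero hx hx)
    exact ((hFc 1).mul (hFc 1)).integral_pos_of_hasCompactSupport_nonneg_nonzero
      (HasCompactSupport.of_compactSpace _) (fun x => mul_self_nonneg _)
      (x := 1) (by simpa [h1] using h4.ne')
  have hs00 := (logconvex_growth s hs0 hsc hs1 0).1
  set r := s 1 / s 0 with hr
  have hr0 : 0 < r := div_pos hs1 hs00
  set η := Real.sqrt (r / 2) with hη
  have hη0 : 0 < η := Real.sqrt_pos.2 (by positivity)
  have hη2 : η ^ 2 = r / 2 := Real.sq_sqrt (by positivity)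
  obtain ⟨V, hV, hVσ⟩ := unif_small hσ hσc isCompact_univ (ε := η / μ.real univ) (by positivity)
  have hQ := tiny_mem_nhds hm hV₀ hexp hV
  have hbd : ∀ k, ∃ β, ∀ y, |F k y| ≤ β := fun k => by
    obtain ⟨β, hβ⟩ := isCompact_univ.exists_bound_of_continuousOn (hFc k).continuousOn
    exact ⟨β, fun y => hβ y (mem_univ y)⟩
  obtain ⟨β, hβ⟩ := hbd 0
  have hstep : ∀ k, ∀ q ∈ tiny m V, ∀ x, |F k (q * x) - F k x| ≤ 2 * β * η ^ k := by
    intro k q hq
    induction k with
    | zero =>
      intro x
      have := abs_sub (F 0 (q * x)) (F 0 x)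
      have := hβ (q * x)
      have := hβ x
      simp only [pow_zero, mul_one]; linarith
    | succ k ih =>
      intro x
      obtain ⟨β', hβ'⟩ := hbd k
      rw [hFs]
      refine (cv_gain μ hσ hσc (hFc k).measurable hβ' isCompact_univ hVσ hm hq (by simp) ih x).trans
        (le_of_eq ?_)
      field_simp; ring
  obtain ⟨n, hn⟩ : ∃ n : ℕ, ∀ g : K, g ∈ tiny m V ^ n := by
    have htop := hconn _ (words_isOpen tiny_inv hQ)
    have h1 : (1 : K) ∈ tiny m V := mem_of_mem_nhds hQ
    obtain ⟨n, hn⟩ := isCompact_univ.elim_directed_cover (fun k : ℕ => interior (tiny m V ^ k))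
      (fun _ => isOpen_interior) (fun g _ => by
        have : g ∈ words (tiny m V) tiny_inv := by rw [htop]; trivial
        obtain ⟨k, hk⟩ := mem_iUnion.1 this
        refine mem_iUnion.2 ⟨k + 1, mem_interior_iff_mem_nhds.2 ?_⟩
        have hc : Continuous fun z : K => g⁻¹ * z := by fun_prop
        filter_upwards [hc.continuousAt.preimage_mem_nhds (t := tiny m V) (by simpa using hQ)]
          with z hz
        rw [pow_succ]
        exact ⟨g, hk, _, hz, by simp⟩)
      (Monotone.directed_le fun a b hab => interior_mono (Set.pow_subset_pow_right h1 hab))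
    exact ⟨n, fun g => interior_subset (hn (mem_univ g))⟩
  have hsup : ∀ k x, |F k x| ≤ n * (2 * β * η ^ k) := by
    intro k x
    have h1 : ∀ y, |F k x - F k y| ≤ n * (2 * β * η ^ k) := fun y => by
      simpa using word_step (F k) _ (hstep k) n (x * y⁻¹) (hn _) y
    have h2 : ‖∫ y, (F k x - F k y) ∂μ‖ ≤ n * (2 * β * η ^ k) * μ.real univ :=
      norm_integral_le_of_norm_le_const (Eventually.of_forall h1)
    rw [integral_sub (int_cont μ continuous_const) (int_cont μ (hFc k)), hF0] at h2
    simp only [integral_const, smul_eq_mul, sub_zero, norm_mul, Real.norm_eq_abs,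
      abs_of_pos hM] at h2
    rw [mul_comm] at h2
    exact le_of_mul_le_mul_right h2 hM
  have hup : ∀ k, s k ≤ (n * (2 * β)) ^ 2 * (r / 2) ^ k * μ.real univ := by
    intro k
    refine (Real.le_norm_self _).trans (norm_integral_le_of_norm_le_const
      (f := fun x => F k x * F k x) (Eventually.of_forall fun x => ?_))
    rw [Real.norm_eq_abs, abs_mul, ← sq, ← hη2, ← pow_mul, mul_comm 2 k, pow_mul, ← mul_pow]
    exact pow_le_pow_left₀ (abs_nonneg _) (by simpa [mul_assoc] using hsup k x) 2
  obtain ⟨k, hk⟩ := pow_unbounded_of_one_lt ((n * (2 * β)) ^ 2 * μ.real univ / s 0)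
    (show (1 : ℝ) < 2 by norm_num)
  have h1 := (logconvex_growth s hs0 hsc hs1 k).2.trans (hup k)
  rw [div_lt_iff₀ hs00] at hk
  have h2 : (0 : ℝ) < (r / 2) ^ k := by positivity
  have h3 : r ^ k = (r / 2) ^ k * 2 ^ k := by rw [← mul_pow]; congr 1; ring
  rw [← hr, h3] at h1
  nlinarith

end

end Pool.Agent.Lib.MP_390819_lc
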