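import Pool.Agent.Lib.MP_390819_lc.Basic

set_option linter.unusedSectionVars false
set_option linter.overlappingInstances false

open MeasureTheory Set Filter Topology
open scoped Pointwise ENNReal

namespace Pool.Agent.Lib.MP_390819_lc

theorem avg_trick {G : Type} [Group G] (φ : G → ℝ) (q : G) {m : ℕ} (hm : 0 < m) (hq : q ^ m = 1)
    {b : ℝ} (x : G)
    (h : ∀ j : ℕ, |(φ (q * (q ^ j * x)) - φ (q ^ j * x)) - (φ (q * x) - φ x)| ≤ b) :
    |φ (q * x) - φ x| ≤ b := by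
  have h1 : ∑ j ∈ Finset.range m, (φ (q * (q ^ j * x)) - φ (q ^ j * x)) = 0 := by
    have := Finset.sum_range_sub (fun j => φ (q ^ j * x)) m
    simp only [hq, pow_zero, sub_self] at this
    rw [← this]
    exact Finset.sum_congr rfl fun j _ => by rw [pow_succ', mul_assoc]
  have h2 : |∑ j ∈ Finset.range m,
      ((φ (q * (q ^ j * x)) - φ (q ^ j * x)) - (φ (q * x) - φ x))| ≤ m * b := by
    refine (Finset.abs_sum_le_sum_abs _ _).trans ((Finset.sum_le_sum fun j _ => h j).trans ?_)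
    simp
  rw [Finset.sum_sub_distrib, h1] at h2
  simp only [Finset.sum_const, Finset.card_range, nsmul_eq_mul, zero_sub, abs_neg, abs_mul,
    Nat.abs_cast] at h2
  exact le_of_mul_le_mul_left h2 (by exact_mod_cast hm)

theorem word_step {G : Type} [Group G] (φ : G → ℝ) (Q : Set G) {b : ℝ}
    (h : ∀ q ∈ Q, ∀ x, |φ (q * x) - φ x| ≤ b) (k : ℕ) :
    ∀ g ∈ Q ^ k, ∀ x, |φ (g * x) - φ x| ≤ k * b := by
  induction k with
  | zero => intro g hg x; simp at hg; simp [hg]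
  | succ k ih =>
    intro g hg x
    rw [pow_succ'] at hg
    obtain ⟨q, hq, g', hg', rfl⟩ := hg
    have h1 := h q hq (g' * x)
    have h2 := ih g' hg' x
    simp only [mul_assoc]
    push_cast
    have := abs_sub_le (φ (q * (g' * x))) (φ (g' * x)) (φ x)
    linarith

/-- the subgroup of all words in a symmetric set -/
def words {G : Type} [Group G] (Q : Set G) (hQ : ∀ q ∈ Q, q⁻¹ ∈ Q) : Subgroup G where
  carrier := ⋃ k : ℕ, Q ^ k
  one_mem' := mem_iUnion.2 ⟨0, by simp⟩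
  mul_mem' := by
    intro a b ha hb
    obtain ⟨k, hk⟩ := mem_iUnion.1 ha
    obtain ⟨l, hl⟩ := mem_iUnion.1 hb
    exact mem_iUnion.2 ⟨k + l, by rw [pow_add]; exact mul_mem_mul hk hl⟩
  inv_mem' := by
    intro a ha
    obtain ⟨k, hk⟩ := mem_iUnion.1 ha
    have : Q⁻¹ = Q := by
      ext x; exact ⟨fun h => by simpa using hQ _ h, fun h => hQ _ h⟩
    refine mem_iUnion.2 ⟨k, ?_⟩
    rw [← this, inv_pow]; simpa using hk

theorem inv_mem_pow {G : Type} [Group G] {Q : Set G} (hQ : ∀ q ∈ Q, q⁻¹ ∈ Q) {k : ℕ} {a : G}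
    (ha : a ∈ Q ^ k) : a⁻¹ ∈ Q ^ k := by
  have : Q⁻¹ = Q := by
    ext x; exact ⟨fun h => by simpa using hQ _ h, fun h => hQ _ h⟩
  rw [← this, inv_pow]; simpa using ha

/-- elements of exponent `m` all of whose powers lie in `V` -/
def tiny {G : Type} [Group G] (m : ℕ) (V : Set G) : Set G := {g | g ^ m = 1 ∧ ∀ j : ℤ, g ^ j ∈ V}

theorem tiny_inv {G : Type} [Group G] {m : ℕ} {V : Set G} : ∀ q ∈ tiny m V, q⁻¹ ∈ tiny m V :=
  fun q hq => ⟨by simp [hq.1], fun j => by simpa using hq.2 (-j)⟩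

theorem tiny_subset {G : Type} [Group G] {m : ℕ} {V : Set G} : tiny m V ⊆ V :=
  fun q hq => by simpa using hq.2 1

section
variable {G : Type} [Group G] [TopologicalSpace G] [IsTopologicalGroup G]

theorem tiny_mem_nhds {m : ℕ} (hm : 0 < m) {V₀ : Set G} (hV₀ : V₀ ∈ 𝓝 (1 : G))
    (hexp : ∀ g ∈ V₀, g ^ m = 1) {V : Set G} (hV : V ∈ 𝓝 (1 : G)) : tiny m V ∈ 𝓝 (1 : G) := by
  have h1 : (⋂ j : Fin m, {g : G | g ^ j.1 ∈ V}) ∈ 𝓝 (1 : G) :=
    iInter_mem.2 fun j => (continuous_pow j.1).continuousAt.preimage_mem_nhds (by simpa using hV)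
  filter_upwards [h1, hV₀] with g hg hg0
  refine ⟨hexp g hg0, fun j => ?_⟩
  have hm' : (0 : ℤ) < m := by exact_mod_cast hm
  have h2 : 0 ≤ j % m := Int.emod_nonneg _ hm'.ne'
  have h3 : (j % m).toNat < m := by have := Int.emod_lt_of_pos j hm'; omega
  have := mem_iInter.1 hg ⟨_, h3⟩
  simp only [mem_ofPred_eq] at this
  rw [← zpow_natCast, Int.toNat_of_nonneg h2] at this
  rw [zpow_eq_zpow_emod' j (hexp g hg0)]
  exact this

theorem words_isOpen {Q : Set G} (hQ : ∀ q ∈ Q, q⁻¹ ∈ Q) (h : Q ∈ 𝓝 (1 : G)) :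
    IsOpen (words Q hQ : Set G) :=
  Subgroup.isOpen_of_mem_nhds _ (mem_of_superset h fun x hx => mem_iUnion.2 ⟨1, by simpa using hx⟩)

theorem unif_small [LocallyCompactSpace G] {σ : G → ℝ} (hσ : Continuous σ)
    (hσc : HasCompactSupport σ) {S : Set G} (hS : IsCompact S) {ε : ℝ} (hε : 0 < ε) :
    ∃ V ∈ 𝓝 (1 : G), ∀ g ∈ V, ∀ y ∈ S, ∀ x, |σ ((g * x)⁻¹ * y) - σ (x⁻¹ * y)| ≤ ε := by
  obtain ⟨N, hN, hNc, hNi, -⟩ := exists_nice (univ_mem : (univ : Set G) ∈ 𝓝 (1 : G))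
  have h1 : ∀ᶠ u in 𝓝 (1 : G), ∀ z ∈ tsupport σ * N, |σ (z * u) - σ z| < ε := by
    refine (hσc.isCompact.mul hNc).eventually_forall_of_forall_eventually fun z _ => ?_
    have hc : Continuous fun w : G × G => |σ (w.2 * w.1) - σ w.2| := by fun_prop
    exact hc.continuousAt.eventually_lt continuousAt_const (by simpa using hε)
  have h2 : ∀ᶠ u in 𝓝 (1 : G), ∀ z, |σ (z * u) - σ z| ≤ ε := by
    filter_upwards [h1, hN] with u hu huN z
    by_cases hz : z ∈ tsupport σ * N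
    · exact (hu z hz).le
    · have ha : σ z = 0 := image_eq_zero_of_notMem_tsupport fun h =>
        hz ⟨z, h, 1, mem_of_mem_nhds hN, by simp⟩
      have hb : σ (z * u) = 0 := image_eq_zero_of_notMem_tsupport fun h =>
        hz ⟨z * u, h, u⁻¹, hNi u huN, by simp⟩
      simpa [ha, hb] using hε.le
  have h3 : ∀ᶠ g in 𝓝 (1 : G), ∀ y ∈ S, ∀ z, |σ (z * (y⁻¹ * g⁻¹ * y)) - σ z| ≤ ε := by
    refine hS.eventually_forall_of_forall_eventually fun y _ => ?_
    have hc : Continuous fun w : G × G => w.2⁻¹ * w.1⁻¹ * w.2 := by fun_prop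
    exact (hc.continuousAt (x := (1, y))).eventually (p := fun u => ∀ z, |σ (z * u) - σ z| ≤ ε)
      (by simpa using h2)
  refine ⟨_, h3, fun g hg y hy x => ?_⟩
  have := hg y hy (x⁻¹ * y)
  convert this using 3; group

variable [MeasurableSpace G] [BorelSpace G] (μ : Measure G) [μ.IsHaarMeasure]

/-- convolution operator -/
noncomputable def cv (σ F : G → ℝ) (x : G) : ℝ := ∫ y, F y * σ (x⁻¹ * y) ∂μ

theorem cv_comm (σ F : G → ℝ) (q x : G) : cv μ σ (fun y => F (q * y)) x = cv μ σ F (q * x) := by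
  unfold cv
  rw [← integral_mul_left_eq_self (fun y => F y * σ ((q * x)⁻¹ * y)) q]
  congr 1; ext y; congr 2; group

theorem cv_integrable {σ F : G → ℝ} (hσ : Continuous σ) (hσc : HasCompactSupport σ)
    (hF : Measurable F) {β : ℝ} (hβ : ∀ y, |F y| ≤ β) (x : G) :
    Integrable (fun y => F y * σ (x⁻¹ * y)) μ := by
  have h1 : Integrable (fun y => σ (x⁻¹ * y)) μ :=
    (hσ.integrable_of_hasCompactSupport hσc).comp_mul_left x⁻¹
  exact h1.bdd_mul hF.aestronglyMeasurable (Eventually.of_forall hβ)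

theorem cv_sub {σ F F' : G → ℝ} (hσ : Continuous σ) (hσc : HasCompactSupport σ)
    (hF : Measurable F) (hF' : Measurable F') {β : ℝ} (hβ : ∀ y, |F y| ≤ β) (hβ' : ∀ y, |F' y| ≤ β)
    (x : G) : cv μ σ (fun y => F y - F' y) x = cv μ σ F x - cv μ σ F' x := by
  unfold cv
  rw [← integral_sub (cv_integrable μ hσ hσc hF hβ x) (cv_integrable μ hσ hσc hF' hβ' x)]
  congr 1; ext y; ring

theorem cv_est [T2Space G] {σ F : G → ℝ} (hσ : Continuous σ) (hσc : HasCompactSupport σ)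
    (hF : Measurable F) {β : ℝ} (hβ : ∀ y, |F y| ≤ β) {S : Set G} (hS : IsCompact S)
    (hFS : ∀ y, y ∉ S → F y = 0) {ε : ℝ} {g : G}
    (hg : ∀ y ∈ S, ∀ x, |σ ((g * x)⁻¹ * y) - σ (x⁻¹ * y)| ≤ ε) (x : G) :
    |cv μ σ F (g * x) - cv μ σ F x| ≤ β * ε * μ.real S := by
  unfold cv
  rw [← integral_sub (cv_integrable μ hσ hσc hF hβ _) (cv_integrable μ hσ hσc hF hβ x),
    ← setIntegral_eq_integral_of_forall_compl_eq_zero (s := S) (fun y hy => by simp [hFS y hy]),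
    ← Real.norm_eq_abs]
  refine norm_setIntegral_le_of_norm_le_const hS.measure_lt_top fun y hy => ?_
  rw [← mul_sub, Real.norm_eq_abs, abs_mul]
  exact mul_le_mul (hβ y) (hg y hy x) (abs_nonneg _) ((abs_nonneg _).trans (hβ y))

theorem cv_gain [T2Space G] {σ F : G → ℝ} (hσ : Continuous σ) (hσc : HasCompactSupport σ)
    (hF : Measurable F) {β₀ : ℝ} (hβ₀ : ∀ y, |F y| ≤ β₀) {S : Set G} (hS : IsCompact S)
    {ε : ℝ} {V : Set G}
    (hV : ∀ g ∈ V, ∀ y ∈ S, ∀ x, |σ ((g * x)⁻¹ * y) - σ (x⁻¹ * y)| ≤ ε) {m : ℕ} (hm : 0 < m)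
    {q : G} (hq : q ∈ tiny m V) (hFS : ∀ y, y ∉ S → F (q * y) - F y = 0) {β : ℝ}
    (hβ : ∀ y, |F (q * y) - F y| ≤ β) (x : G) :
    |cv μ σ F (q * x) - cv μ σ F x| ≤ β * ε * μ.real S := by
  have hFq : Measurable fun y => F (q * y) := hF.comp (measurable_const_mul q)
  have key : ∀ z, cv μ σ F (q * z) - cv μ σ F z = cv μ σ (fun y => F (q * y) - F y) z := by
    intro z
    rw [cv_sub μ hσ hσc hFq hF (fun y => hβ₀ _) hβ₀, cv_comm]
  refine avg_trick _ q hm hq.1 x fun j => ?_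
  rw [key, key]
  exact cv_est μ hσ hσc (hFq.sub hF) hβ hS hFS (hV _ (by simpa using hq.2 j)) x

end

end Pool.Agent.Lib.MP_390819_lc
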