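import Mathlib

namespace Pool.Agent.Lib.MP_390819_lc

/-- the least number of left translates of a single compact `μ`-null set that cover `G` -/
noncomputable def covStar (G : Type) [Group G] [TopologicalSpace G] [MeasurableSpace G]
    (μ : MeasureTheory.Measure G) : Cardinal :=
  sInf {κ : Cardinal | ∃ C : Set G, IsCompact C ∧ μ C = 0 ∧
    ∃ A : Set G, Cardinal.mk A = κ ∧ ⋃ a ∈ A, (fun x => a * x) '' C = Set.univ}

end Pool.Agent.Lib.MP_390819_lc
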