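import Mathlib

namespace Pool.Agent.Lib.MP_390819_lc

open Subgroup

theorem normal_meets_center {p : ℕ} [Fact p.Prime] {Q : Type} [Group Q] [Finite Q]
    (hQ : IsPGroup p Q) (N : Subgroup Q) [N.Normal] (hN : N ≠ ⊥) :
    ∃ z ∈ N, z ≠ 1 ∧ ∀ g, g * z = z * g := by
  have hdvd : p ∣ Nat.card N := by
    have : Nontrivial N := (Subgroup.nontrivial_iff_ne_bot N).2 hN
    obtain ⟨n, hn0, hn⟩ := (hQ.to_subgroup N).nontrivial_iff_card.mp inferInstance
    exact hn.symm ▸ dvd_pow_self _ (ne_of_gt hn0)
  obtain ⟨z, hz, hne⟩ :=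
    (hQ.of_equiv ConjAct.toConjAct).exists_fixed_point_of_prime_dvd_card_of_fixed_point N hdvd
      (a := 1) (fun g => smul_one g)
  refine ⟨z, z.2, fun h => hne (Subtype.ext h.symm), fun g => ?_⟩
  have : g * z * g⁻¹ = z := congrArg Subtype.val (hz (ConjAct.toConjAct g))
  nth_rewrite 2 [← this]; group

theorem exists_large_abelian {p : ℕ} [Fact p.Prime] {P : Type} [Group P] [Finite P]
    (hP : IsPGroup p P) : ∃ A : Subgroup P, (∀ x ∈ A, ∀ y ∈ A, x * y = y * x) ∧
      Nat.card P ≤ Nat.card A * (Nat.card A).factorial := by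
  classical
  obtain ⟨A, hA⟩ := Set.Finite.exists_maximal
    (Set.toFinite {A : Subgroup P | A.Normal ∧ ∀ x ∈ A, ∀ y ∈ A, x * y = y * x})
    ⟨⊥, inferInstance, by simp⟩
  obtain ⟨hAn, hAc⟩ := hA.prop
  refine ⟨A, hAc, ?_⟩
  let φ : P →* MulAut A := MulAut.conjNormal
  have hmem : ∀ g, g ∈ φ.ker ↔ ∀ a ∈ A, g * a = a * g := by
    intro g
    rw [MonoidHom.mem_ker]
    constructor
    · intro h a ha
      have := MulAut.conjNormal_apply g (⟨a, ha⟩ : A)
      rw [show MulAut.conjNormal g = φ g from rfl, h] at this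
      simp only [MulAut.one_apply] at this
      nth_rewrite 2 [this]; group
    · intro h
      ext a
      simp only [φ, MulAut.conjNormal_apply, MulAut.one_apply]
      rw [h a a.2]; group
  have hker : φ.ker ≤ A := by
    by_contra hcon
    have hN : φ.ker.map (QuotientGroup.mk' A) ≠ ⊥ := by
      intro h
      rw [Subgroup.map_eq_bot_iff, QuotientGroup.ker_mk'] at h
      exact hcon h
    have : (φ.ker.map (QuotientGroup.mk' A)).Normal :=
      Subgroup.Normal.map inferInstance _ (QuotientGroup.mk'_surjective A)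
    obtain ⟨_, ⟨z, hz, rfl⟩, hz1, hzc⟩ := normal_meets_center (hP.to_quotient A) _ hN
    have hzA : z ∉ A := fun h => hz1 ((QuotientGroup.eq_one_iff z).2 h)
    have hza := (hmem z).1 hz
    have hcomm : ∀ x ∈ closure (insert z (A : Set P)), ∀ y ∈ closure (insert z (A : Set P)),
        x * y = y * x := by
      intro x hx y hy
      refine closure_induction₂ (p := fun x y _ _ => x * y = y * x) ?_ (by simp) (by simp)
        ?_ ?_ ?_ ?_ hx hy
      · intro a b ha hb
        rcases ha with ha | ha <;> rcases hb with hb | hb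
        · rw [ha, hb]
        · rw [ha]; exact hza b hb
        · rw [hb]; exact (hza a ha).symm
        · exact hAc a ha b hb
      · intro x y z _ _ _ h1 h2; rw [mul_assoc, h2, ← mul_assoc, h1, mul_assoc]
      · intro y z x _ _ _ h1 h2; rw [← mul_assoc, h1, mul_assoc, h2, mul_assoc]
      · intro x y _ _ h; exact (Commute.inv_left h :)
      · intro x y _ _ h; exact (Commute.inv_right h :)
    have hnorm : (closure (insert z (A : Set P))).Normal := by
      refine ⟨fun n hn g => ?_⟩
      refine closure_induction (p := fun n _ => g * n * g⁻¹ ∈ closure (insert z (A : Set P)))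
        ?_ (by simp) ?_ ?_ hn
      · rintro x (rfl | hx)
        · have h1 : g * x * g⁻¹ * x⁻¹ ∈ A := by
            rw [← QuotientGroup.eq_one_iff]
            have := hzc (QuotientGroup.mk' A g)
            simp only [QuotientGroup.mk'_apply] at this
            simp only [QuotientGroup.mk_mul, QuotientGroup.mk_inv, this]
            group
          have := mul_mem (subset_closure (Set.mem_insert_of_mem x h1))
            (subset_closure (Set.mem_insert x (A : Set P)))
          simpa using this
        · exact subset_closure (Or.inr (hAn.conj_mem x hx g))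
      · intro x y _ _ h1 h2
        have := mul_mem h1 h2
        convert this using 1; group
      · intro x _ h
        have := inv_mem h
        convert this using 1; group
    have hle : A ≤ closure (insert z (A : Set P)) := fun x hx => subset_closure (Or.inr hx)
    exact hzA (hA.le_of_ge ⟨hnorm, hcomm⟩ hle (subset_closure (Or.inl rfl)))
  rw [← φ.ker.card_mul_index, index_ker]
  refine Nat.mul_le_mul (Subgroup.card_le_of_le hker) ?_
  refine (Nat.card_le_card_of_injective (β := Equiv.Perm A) (fun x => (x.1 : MulAut A).toEquiv)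
    ?_).trans (by rw [Nat.card_perm])
  intro x y h
  exact Subtype.ext (MulEquiv.toEquiv_injective h)

theorem card_le_ker_pow (p e : ℕ) : ∀ (A : Type) [CommGroup A] [Finite A],
    (∀ x : A, x ^ p ^ e = 1) → Nat.card A ≤ Nat.card (powMonoidHom p : A →* A).ker ^ e := by
  induction e with
  | zero =>
    intro A _ _ h
    have : Subsingleton A := ⟨fun a b => by
      have ha := h a; have hb := h b; simp at ha hb; rw [ha, hb]⟩
    simp
  | succ e ih =>
    intro A _ _ h
    rw [← (powMonoidHom p : A →* A).ker.card_mul_index, index_ker, pow_succ']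
    refine Nat.mul_le_mul_left _ ((ih (powMonoidHom p : A →* A).range ?_).trans ?_)
    · rintro ⟨_, x, rfl⟩
      ext
      simp only [powMonoidHom_apply, SubmonoidClass.mk_pow, OneMemClass.coe_one]
      rw [← pow_mul, ← pow_succ', h]
    · refine Nat.pow_le_pow_left (Nat.card_le_card_of_injective
        (fun x => ⟨x.1.1, by
          have h1 : x.1 ^ p = 1 := x.2
          have := congrArg Subtype.val h1
          simpa using this⟩) ?_) _
      intro x y h
      exact Subtype.ext (Subtype.ext (by simpa using h))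

/-- large finite groups of bounded exponent have large elementary abelian subgroups -/
theorem exists_elementary (m : ℕ) (hm : 0 < m) (n : ℕ) : ∃ R : ℕ, ∀ (F : Type) [Group F] [Finite F],
    (∀ x : F, x ^ m = 1) → R ≤ Nat.card F → ∃ p : ℕ, p.Prime ∧ p ∣ m ∧
      ∃ (E : Type) (_ : CommGroup E) (j : E →* F), Function.Injective j ∧ (∀ x : E, x ^ p = 1) ∧
        n ≤ Nat.card E := by
  classical
  set Q := n ^ m * (n ^ m).factorial + 1 with hQ
  refine ⟨m ^ Q + 1, fun F _ _ hF hR => ?_⟩
  have hpm : ∀ p : ℕ, p.Prime → p ∣ Nat.card F → p ∣ m := by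
    intro p hp hd
    have := Fact.mk hp
    obtain ⟨x, hx⟩ := exists_prime_orderOf_dvd_card' (G := F) p hd
    rw [← hx]; exact orderOf_dvd_of_pow_eq_one (hF x)
  obtain ⟨p, hp, hd⟩ : ∃ p : ℕ, p.Prime ∧ p ^ Q ∣ Nat.card F := by
    by_contra hcon
    push Not at hcon
    have : Nat.card F ∣ m ^ Q := by
      rw [Nat.dvd_iff_prime_pow_dvd_dvd]
      intro p k hp hk
      rcases Nat.eq_zero_or_pos k with rfl | hk0
      · simp
      have h1 : k ≤ Q := by
        by_contra h
        exact hcon p hp ((pow_dvd_pow p (not_le.1 h).le).trans hk)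
      exact (pow_dvd_pow p h1).trans
        (pow_dvd_pow_of_dvd (hpm p hp ((dvd_pow_self p hk0.ne').trans hk)) Q)
    have := Nat.le_of_dvd (pow_pos hm Q) this
    omega
  have := Fact.mk hp
  obtain ⟨P, hP⟩ := Sylow.exists_subgroup_card_pow_prime p hd
  have hPp : IsPGroup p P := IsPGroup.of_card hP
  obtain ⟨A, hAc, hA⟩ := exists_large_abelian hPp
  let _ : CommGroup A :=
    { (inferInstance : Group A) with mul_comm := fun x y => Subtype.ext (hAc x x.2 y y.2) }
  have hexp : ∀ x : A, x ^ p ^ m = 1 := by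
    intro x
    obtain ⟨k, hk⟩ := IsPGroup.iff_orderOf.1 (hPp.to_subgroup A) x
    have h1 : x ^ m = 1 := Subtype.ext (Subtype.ext (by simpa using hF x.1.1))
    have h2 : p ^ k ≤ m := Nat.le_of_dvd hm (hk ▸ orderOf_dvd_of_pow_eq_one h1)
    have h3 : k ≤ m := ((Nat.lt_pow_self hp.one_lt).trans_le h2).le
    exact orderOf_dvd_iff_pow_eq_one.1 (hk ▸ pow_dvd_pow p h3)
  have h4 := card_le_ker_pow p m A hexp
  refine ⟨p, hp, hpm p hp ((dvd_pow_self p (by omega)).trans hd),
    (powMonoidHom p : A →* A).ker, inferInstance,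
    P.subtype.comp (A.subtype.comp (Subgroup.subtype _)), ?_, ?_, ?_⟩
  · exact P.subtype_injective.comp (A.subtype_injective.comp (Subgroup.subtype_injective _))
  · intro x; exact Subtype.ext (by simpa using MonoidHom.mem_ker.1 x.2)
  · by_contra hcon
    have h5 : Nat.card A ≤ n ^ m := h4.trans (Nat.pow_le_pow_left (not_le.1 hcon).le m)
    have h6 := hA.trans (Nat.mul_le_mul h5 (Nat.factorial_le h5))
    rw [hP] at h6
    have h7 : Q < p ^ Q := Nat.lt_pow_self hp.one_lt
    omega

theorem exists_surj_aux {p : ℕ} [hp : Fact p.Prime] {E Γ : Type} [AddCommGroup E] [Finite E]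
    [AddCommGroup Γ] [Finite Γ] [Module (ZMod p) E] [Module (ZMod p) Γ]
    (h : Nat.card Γ ≤ Nat.card E) : ∃ π : E →+ Γ, Function.Surjective π := by
  have hle : Module.finrank (ZMod p) Γ ≤ Module.finrank (ZMod p) E := by
    have h1 := Module.natCard_eq_pow_finrank (K := ZMod p) (V := Γ)
    have h2 := Module.natCard_eq_pow_finrank (K := ZMod p) (V := E)
    rw [h1, h2] at h
    exact (Nat.pow_le_pow_iff_right (by simpa using hp.out.one_lt)).1 h
  obtain ⟨i, hi⟩ := finrank_le_iff_exists_linearMap.1 hle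
  obtain ⟨g, hg⟩ := i.exists_leftInverse_of_injective (LinearMap.ker_eq_bot.2 hi)
  exact ⟨g.toAddMonoidHom, fun a => ⟨i a, LinearMap.congr_fun hg a⟩⟩

theorem exists_surj {p : ℕ} (hp : p.Prime) {E Γ : Type} [CommGroup E] [Finite E] [AddCommGroup Γ]
    [Finite Γ] (hE : ∀ x : E, x ^ p = 1) (hΓ : ∀ x : Γ, p • x = 0)
    (h : Nat.card Γ ≤ Nat.card E) : ∃ π : E →* Multiplicative Γ, Function.Surjective π := by
  have := Fact.mk hp
  obtain ⟨π, hπ⟩ := @exists_surj_aux p _ (Additive E) Γ _ _ _ _
    (AddCommGroup.zmodModule (n := p) (G := Additive E)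
      (fun x => by rw [← ofMul_toMul x, ← ofMul_pow, hE, ofMul_one]))
    (AddCommGroup.zmodModule hΓ) h
  refine ⟨AddMonoidHom.toMultiplicativeRight π, fun a => ?_⟩
  obtain ⟨x, hx⟩ := hπ a.toAdd
  exact ⟨x.toMul, by simp [hx]⟩

theorem exists_equivariant {G F : Type} [Group G] [Group F] (K : Subgroup G) (ρ : K →* F) :
    ∃ f : G → F, ∀ (h : K) y, f (h * y) = ρ h * f y := by
  let r : G → G := fun y => Quotient.out (Quotient.mk (QuotientGroup.rightRel K) y)
  have hr : ∀ y, y * (r y)⁻¹ ∈ K := fun y =>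
    QuotientGroup.rightRel_apply.1 (Quotient.mk_out (s := QuotientGroup.rightRel K) y)
  have hr' : ∀ (h : K) y, r (h * y) = r y := fun h y => by
    simp only [r]
    congr 1
    exact Quotient.sound (QuotientGroup.rightRel_apply.2 (by simp))
  refine ⟨fun y => ρ ⟨_, hr y⟩, fun h y => ?_⟩
  rw [← map_mul]
  exact congrArg ρ (Subtype.ext (by simp [hr', mul_assoc]))

end Pool.Agent.Lib.MP_390819_lc
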