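import Pool.Agent.Lib.MP_390819_lc.Basic

set_option linter.unusedSectionVars false

open MeasureTheory Set Filter Topology
open scoped Pointwise ENNReal

namespace Pool.Agent.Lib.MP_390819_lc

theorem prod_swap_one {N M : Type*} [Fintype N] [DecidableEq N] [CommMonoid M] (g g' : N → M)
    (a : N) (h : ∀ b, b ≠ a → g b = g' b) : (∏ b, g b) * g' a = (∏ b, g' b) * g a := by
  rw [← Finset.mul_prod_erase Finset.univ g (Finset.mem_univ a),
    ← Finset.mul_prod_erase Finset.univ g' (Finset.mem_univ a),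
    Finset.prod_congr rfl fun b hb => h b (Finset.ne_of_mem_erase hb)]
  simp only [mul_comm, mul_left_comm]

theorem sum_swap_zero {N M : Type*} [Fintype N] [DecidableEq N] [AddCommMonoid M] (g g' : N → M)
    (a : N) (h : ∀ b, b ≠ a → g b = g' b) : (∑ b, g b) + g' a = (∑ b, g' b) + g a := by
  rw [← Finset.add_sum_erase Finset.univ g (Finset.mem_univ a),
    ← Finset.add_sum_erase Finset.univ g' (Finset.mem_univ a),
    Finset.sum_congr rfl fun b hb => h b (Finset.ne_of_mem_erase hb)]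
  simp only [add_comm, add_left_comm]

theorem types (p : ℕ) [Fact (1 < p)] [NeZero p] (N : Type) [Fintype N] [DecidableEq N] :
    ∃ (U : Finset (N → ZMod p)) (ty : (N → ZMod p) → ZMod p),
      (Fintype.card (N → ZMod p) : ℝ) / 3 ^ p ≤ U.card ∧
      ∀ ξ ∈ U, ∀ a, ty (ξ + Pi.single a 1) = ξ a + 1 := by
  classical
  let s : (N → ZMod p) → ZMod p → ZMod 3 := fun ξ j => ∑ b, if ξ b = j then 1 else 0
  obtain ⟨θ, hθ⟩ := Fintype.exists_le_card_fiber_of_nsmul_le_card s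
    (b := (Fintype.card (N → ZMod p) : ℝ) / 3 ^ p) (by
      simp only [Fintype.card_pi, ZMod.card, Finset.prod_const, Finset.card_univ, nsmul_eq_mul]
      push_cast
      rw [mul_div_cancel₀ _ (by positivity)])
  refine ⟨_, fun ξ => if h : ∃ j, s ξ j = θ j + 1 then h.choose else 0, hθ, ?_⟩
  intro ξ hξ a
  have hs : s ξ = θ := by simpa using hξ
  have key : ∀ j, s (ξ + Pi.single a 1) j = θ j + 1 ↔ j = ξ a + 1 := by
    intro j
    have h1 := sum_swap_zero (fun b => if (ξ + Pi.single a 1 : N → ZMod p) b = j then (1 : ZMod 3) else 0)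
      (fun b => if ξ b = j then 1 else 0) a (fun b hb => by simp [Pi.single_eq_of_ne hb])
    have h2 : s (ξ + Pi.single a 1) j + (if ξ a = j then 1 else 0) =
        θ j + (if ξ a + 1 = j then 1 else 0) := by
      rw [← hs]; simpa [s] using h1
    constructor
    · intro h
      rw [h] at h2
      by_contra hne
      rw [if_neg (Ne.symm hne), add_assoc, add_right_inj] at h2
      split_ifs at h2 <;> revert h2 <;> decide
    · rintro rfl
      rw [if_neg (by simp), if_pos rfl] at h2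
      simpa using h2
  have hex : ∃ j, s (ξ + Pi.single a 1) j = θ j + 1 := ⟨_, (key _).2 rfl⟩
  simp only [dif_pos hex]
  exact (key _).1 hex.choose_spec

section
variable {G : Type} [Group G] [TopologicalSpace G] [IsTopologicalGroup G]

theorem exists_reduction [LocallyCompactSpace G] {W : Set G} (hW : IsCompact W) {U : Set G}
    (hU : U ∈ 𝓝 (1 : G)) : ∃ (k : ℕ) (lam : G → G), (∀ z, (lam z)⁻¹ * z ∈ U) ∧
      ∀ z, ∃ s : Finset G, s.card ≤ k ∧ ∀ w ∈ W, lam (z * w) ∈ s := by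
  classical
  obtain ⟨V, hV, hVc, hVi, hVU⟩ := exists_nice hU
  obtain ⟨V', hV', -, hVi', hVV⟩ := exists_nice hV
  have h1 : (1 : G) ∈ V := mem_of_mem_nhds hV
  have h1' : (1 : G) ∈ V' := mem_of_mem_nhds hV'
  obtain ⟨L, hL⟩ := zorn_subset {L : Set G | L.Pairwise fun x y => x⁻¹ * y ∉ V} (by
    intro c hc hch
    refine ⟨⋃₀ c, ?_, fun s hs => subset_sUnion_of_mem hs⟩
    exact (pairwise_sUnion hch.directedOn).2 fun s hs => hc hs)
  have hcov : ∀ z, ∃ l ∈ L, l⁻¹ * z ∈ V := by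
    intro z
    by_contra hcon
    push Not at hcon
    have hz : z ∉ L := fun h => hcon z h (by simpa using h1)
    have : (insert z L).Pairwise fun x y => x⁻¹ * y ∉ V := by
      rw [pairwise_insert]
      refine ⟨hL.prop, fun y hy _ => ⟨fun h => hcon y hy (by simpa using hVi _ h), hcon y hy⟩⟩
    exact hz (hL.le_of_ge this (subset_insert z L) (mem_insert z L))
  choose lam hlamL hlam using hcov
  obtain ⟨s₀, -, hs₀⟩ := exists_net (hW.mul hVc) hV'
  refine ⟨s₀.card, lam, fun z => by simpa using hVU _ (hlam z) 1 h1 1 h1 1 h1, fun z => ?_⟩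
  refine ⟨s₀.image fun x => if h : ∃ l ∈ L, x⁻¹ * (z⁻¹ * l) ∈ V' then h.choose else 1,
    Finset.card_image_le, fun w hw => ?_⟩
  obtain ⟨x, hx, hxy⟩ := hs₀ (z⁻¹ * lam (z * w)) (by
    refine ⟨w, hw, ((lam (z * w))⁻¹ * (z * w))⁻¹, hVi _ (hlam _), by group⟩)
  have hex : ∃ l ∈ L, x⁻¹ * (z⁻¹ * l) ∈ V' := ⟨_, hlamL _, hxy⟩
  refine Finset.mem_image.2 ⟨x, hx, ?_⟩
  simp only [dif_pos hex]
  by_contra hne
  refine hL.prop hex.choose_spec.1 (hlamL (z * w)) hne ?_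
  have := hVV _ (hVi' _ hex.choose_spec.2) _ hxy 1 h1' 1 h1'
  convert this using 1; group

end

section
variable {H : Type} [CommGroup H] [TopologicalSpace H] [IsTopologicalGroup H]
  [LocallyCompactSpace H] [T2Space H] [MeasurableSpace H] [BorelSpace H]
  (μ : Measure H) [μ.IsHaarMeasure] [μ.Regular]

theorem lower_step (p : ℕ) [Fact (1 < p)] [NeZero p] {C : Set H} (hC : IsCompact C) (h0 : μ C = 0)
    {W : Set H} (hW : W ∈ 𝓝 (1 : H)) (hWc : IsCompact W) (D : Finset H) :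
    ∃ (W' : Set H) (D' : Finset H), W' ∈ 𝓝 (1 : H) ∧ IsCompact W' ∧
      ∃ (N : ℕ) (e : Fin N → H) (f : (Fin N → ZMod p) → H) (T : Finset (Fin N → ZMod p)),
        (∀ a ∈ W, ∃ i, (e i)⁻¹ * a ∈ W') ∧ (∀ ξ, ∀ w ∈ W', f ξ * w ∈ W) ∧
        (∀ t ∈ D, ∀ ξ i, t * f ξ * (e i)⁻¹ ∈ D') ∧
        (∀ t ∈ D, ∀ ξ i, ∀ w ∈ W', ∀ w' ∈ W', t * f ξ * (e i)⁻¹ * w * w'⁻¹ ∈ C →
          ξ - Pi.single i 1 ∈ T) ∧
        (T.card : ℝ) ≤ (1 - 1 / (2 * 3 ^ p)) * Fintype.card (Fin N → ZMod p) := by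
  classical
  obtain ⟨V, hV, hVc, hVi, hVW⟩ := exists_nice hW
  have h1 : (1 : H) ∈ V := mem_of_mem_nhds hV
  obtain ⟨k, lam, hlam, hk⟩ := exists_reduction hWc hV
  have hV0 := real_pos_of_nhds μ hV hVc
  obtain ⟨O, hO, hOf, hOm, V₁, hV₁, hCO⟩ := exists_thick_right μ hC h0
    (η := μ.real V / (2 * (p * k * D.card + 1))) (by positivity)
  obtain ⟨W', hW', hW'c, hW'i, hW'V⟩ := exists_nice (inter_mem hV hV₁)
  have h1' : (1 : H) ∈ W' := mem_of_mem_nhds hW'
  obtain ⟨s, hsW, hs⟩ := exists_net hWc hW'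
  let e : Fin s.card → H := fun i => (s.equivFin.symm i : H)
  have heW : ∀ i, e i ∈ W := fun i => hsW _ (s.equivFin.symm i).2
  obtain ⟨U, ty, hU, hty⟩ := types p (Fin s.card)
  let σ : ZMod p → (Fin s.card → ZMod p) → H := fun j ξ => ∏ b, if ξ b = j then e b else 1
  have hσ : ∀ ξ a, σ (ξ a + 1) (ξ + Pi.single a 1) = σ (ξ a + 1) ξ * e a := by
    intro ξ a
    have := prod_swap_one
      (fun b => if (ξ + Pi.single a 1 : Fin s.card → ZMod p) b = ξ a + 1 then e b else 1)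
      (fun b => if ξ b = ξ a + 1 then e b else 1) a (fun b hb => by simp [Pi.single_eq_of_ne hb])
    simpa [σ] using this
  choose S hSk hS using hk
  let E : (Fin s.card → ZMod p) → Set H := fun ξ =>
    ⋃ x ∈ (Finset.univ : Finset (ZMod p)).sigma (fun j => S (σ j ξ) ×ˢ D),
      {c | x.2.2 * (x.2.1⁻¹ * σ x.1 ξ) * c ∈ O}
  have hEo : ∀ ξ, IsOpen (E ξ) := fun ξ => isOpen_biUnion fun x _ => hO.preimage (by fun_prop)
  have hEf : ∀ ξ, μ (E ξ) ≠ ⊤ := fun ξ =>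
    (measure_biUnion_lt_top (Finset.finite_toSet _)
      fun x _ => (preimage_mul_ne_top μ _ hOf).lt_top).ne
  have hEm : ∀ ξ ∈ U, μ.real (E ξ) ≤ (1 / 2) * μ.real V := by
    intro ξ _
    refine (measureReal_biUnion_finset_le _ _).trans ?_
    simp only [real_preimage_mul, Finset.sum_const, nsmul_eq_mul]
    have hc : (((Finset.univ : Finset (ZMod p)).sigma (fun j => S (σ j ξ) ×ˢ D)).card : ℝ)
        ≤ p * k * D.card := by
      rw [Finset.card_sigma]
      have : ∑ j : ZMod p, (S (σ j ξ) ×ˢ D).card ≤ ∑ _j : ZMod p, k * D.card :=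
        Finset.sum_le_sum fun j _ => by
          rw [Finset.card_product]; exact Nat.mul_le_mul_right _ (hSk _)
      simp only [Finset.sum_const, Finset.card_univ, ZMod.card, smul_eq_mul] at this
      rw [mul_assoc]; exact_mod_cast this
    refine (mul_le_mul hc hOm measureReal_nonneg (by positivity)).trans ?_
    rw [mul_div_assoc', div_le_iff₀ (by positivity)]
    nlinarith [hV0]
  obtain ⟨c, hcV, hc⟩ := exists_few μ hV0 U E (fun ξ => (hEo ξ).measurableSet) hEf hEm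
  let f : (Fin s.card → ZMod p) → H := fun ξ => (lam (σ (ty ξ) ξ))⁻¹ * σ (ty ξ) ξ * c
  refine ⟨W', (D ×ˢ Finset.univ).image
      fun x : H × (Fin s.card → ZMod p) × Fin s.card => x.1 * f x.2.1 * (e x.2.2)⁻¹,
    hW', hW'c, s.card, e, f, Finset.univ \ U.filter (fun ξ => c ∉ E ξ), ?_, ?_, ?_, ?_, ?_⟩
  · intro a ha
    obtain ⟨x, hx, h⟩ := hs a ha
    exact ⟨s.equivFin ⟨x, hx⟩, by simpa [e] using h⟩
  · intro ξ w hw
    have hw' : w ∈ V := by simpa using (hW'V w hw 1 h1' 1 h1' 1 h1').1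
    simpa [f] using hVW _ (hlam (σ (ty ξ) ξ)) c hcV w hw' 1 h1
  · intro t ht ξ i
    exact Finset.mem_image.2 ⟨(t, ξ, i), by simp [ht], rfl⟩
  · intro t ht ξ i w hw w' hw' hin
    simp only [Finset.mem_sdiff, Finset.mem_univ, Finset.mem_filter, true_and, not_and, not_not]
    intro hξ
    set ζ := ξ - Pi.single i 1 with hζ
    have hξ' : ξ = ζ + Pi.single i 1 := by simp [hζ]
    have h2 : ty ξ = ζ i + 1 := by rw [hξ']; exact hty ζ hξ i
    have h3 : σ (ty ξ) ξ = σ (ζ i + 1) ζ * e i := by rw [h2, hξ']; exact hσ ζ i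
    simp only [E, mem_iUnion]
    refine ⟨⟨ζ i + 1, lam (σ (ζ i + 1) ζ * e i), t⟩, ?_, ?_⟩
    · simp only [Finset.mem_sigma, Finset.mem_univ, Finset.mem_product, true_and]
      exact ⟨hS _ _ (heW i), ht⟩
    · have := hCO _ hin (w' * w⁻¹) (by simpa using (hW'V w' hw' _ (hW'i w hw) 1 h1' 1 h1').2)
      simp only [f, h3] at this
      simp only [mem_ofPred_eq]
      convert this using 1
      apply Additive.ofMul.injective
      simp only [ofMul_mul, ofMul_inv]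
      abel
  · rw [Finset.card_univ_sdiff]
    have h4 := Finset.card_filter_add_card_filter_not (s := U) (fun ξ => c ∈ E ξ)
    have h5 : (U.filter fun ξ => c ∉ E ξ).card ≤ Fintype.card (Fin s.card → ZMod p) :=
      Finset.card_le_univ _
    rw [Nat.cast_sub h5]
    have h6 : ((U.filter fun ξ => c ∈ E ξ).card : ℝ) + (U.filter fun ξ => c ∉ E ξ).card
      = U.card := by exact_mod_cast h4
    have h7 : (1 - 1 / (2 * 3 ^ p) : ℝ) * Fintype.card (Fin s.card → ZMod p) =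
      Fintype.card (Fin s.card → ZMod p) - (Fintype.card (Fin s.card → ZMod p) / 3 ^ p) / 2 := by
      field_simp
    rw [h7]; linarith

theorem sys_of_cov (p : ℕ) [Fact (1 < p)] [NeZero p] {ι : Type} (h : Cov H μ ι) :
    Sys p (1 - 1 / (2 * 3 ^ p)) ι := by
  classical
  obtain ⟨C, hC, h0, a, ha⟩ := h
  obtain ⟨W₀, hW₀c, hW₀⟩ := exists_compact_mem_nhds (1 : H)
  obtain ⟨Q, -, hQ⟩ := exists_net (hW₀c.mul hC.inv) hW₀
  obtain ⟨st, hst0, hst⟩ := exists_seq (σ := Set H × Finset H)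
    (fun s => s.1 ∈ 𝓝 (1 : H) ∧ IsCompact s.1)
    (fun _ s s' => ∃ (N : ℕ) (e : Fin N → H) (f : (Fin N → ZMod p) → H)
      (T : Finset (Fin N → ZMod p)),
        (∀ a ∈ s.1, ∃ i, (e i)⁻¹ * a ∈ s'.1) ∧ (∀ ξ, ∀ w ∈ s'.1, f ξ * w ∈ s.1) ∧
        (∀ t ∈ s.2, ∀ ξ i, t * f ξ * (e i)⁻¹ ∈ s'.2) ∧
        (∀ t ∈ s.2, ∀ ξ i, ∀ w ∈ s'.1, ∀ w' ∈ s'.1, t * f ξ * (e i)⁻¹ * w * w'⁻¹ ∈ C →
          ξ - Pi.single i 1 ∈ T) ∧
        (T.card : ℝ) ≤ (1 - 1 / (2 * 3 ^ p)) * Fintype.card (Fin N → ZMod p))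
    (fun _ s hs => by
      obtain ⟨W', D', h1, h2, h3⟩ := lower_step μ p hC h0 hs.1 hs.2 s.2
      exact ⟨(W', D'), ⟨h1, h2⟩, h3⟩)
    (W₀, Q.image fun q => q⁻¹) ⟨hW₀, hW₀c⟩
  have hP := fun n => (hst n).1
  choose N e f T h1 h2 h3 h4 h5 using fun n => (hst n).2
  have hidx : ∀ n (r : H), ∃ i : Fin (N n), r ∈ (st n).1 → (e n i)⁻¹ * r ∈ (st (n + 1)).1 := by
    intro n r
    by_cases hr : r ∈ (st n).1
    · obtain ⟨i, hi⟩ := h1 n r hr
      exact ⟨i, fun _ => hi⟩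
    · obtain ⟨i, -⟩ := h1 n 1 (mem_of_mem_nhds (hP n).1)
      exact ⟨i, fun h => absurd h hr⟩
  choose idx hidx using hidx
  let rem : H → ℕ → H := fun r n => Nat.rec r (fun n s => (e n (idx n s))⁻¹ * s) n
  have hrem : ∀ r ∈ W₀, ∀ n, rem r n ∈ (st n).1 := by
    intro r hr n
    induction n with
    | zero => rw [hst0]; exact hr
    | succ n ih => exact hidx n _ ih
  have hq : ∀ j, ∃ q : H, (∃ q ∈ Q, q⁻¹ * a j ∈ W₀) → q ∈ Q ∧ q⁻¹ * a j ∈ W₀ := by
    intro j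
    by_cases h : ∃ q ∈ Q, q⁻¹ * a j ∈ W₀
    · obtain ⟨q, hq⟩ := h; exact ⟨q, fun _ => hq⟩
    · exact ⟨1, fun h' => absurd h' h⟩
  choose q hq using hq
  refine ⟨fun n => Fin (N n) → ZMod p, inferInstance, inferInstance, T,
    fun j n => Pi.single (idx n (rem ((q j)⁻¹ * a j) n)) 1, ?_, h5, fun ξ => ?_⟩
  · intro n x; ext i; simp
  obtain ⟨x, hx⟩ := exists_limit (fun n => (st n).1) (fun n => (hP n).2)
    (fun n => ⟨1, mem_of_mem_nhds (hP n).1⟩) (fun n => f n (ξ n)) (fun n => h2 n (ξ n))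
  obtain ⟨j, hj⟩ := ha x
  have hx0 : x ∈ W₀ := by simpa [pp, hst0] using hx 0
  obtain ⟨hq1, hq2⟩ := hq j (hQ (a j) ⟨x, hx0, ((a j)⁻¹ * x)⁻¹, by simpa using hj, by group⟩)
  set r := (q j)⁻¹ * a j with hr
  let t : ℕ → H := fun n =>
    Nat.rec (q j)⁻¹ (fun n s => s * f n (ξ n) * (e n (idx n (rem r n)))⁻¹) n
  have ht : ∀ n, t n ∈ (st n).2 ∧
      t n * ((pp (fun n => f n (ξ n)) n)⁻¹ * x) * (rem r n)⁻¹ = (a j)⁻¹ * x := by
    intro n
    induction n with
    | zero =>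
      refine ⟨by rw [hst0]; exact Finset.mem_image_of_mem _ hq1, ?_⟩
      change (q j)⁻¹ * ((1 : H)⁻¹ * x) * r⁻¹ = _
      rw [hr]
      apply Additive.ofMul.injective
      simp only [ofMul_mul, ofMul_inv, ofMul_one]
      abel
    | succ n ih =>
      refine ⟨h3 n _ ih.1 _ _, ?_⟩
      rw [← ih.2]
      change t n * f n (ξ n) * (e n (idx n (rem r n)))⁻¹ *
        ((pp (fun n => f n (ξ n)) n * f n (ξ n))⁻¹ * x) *
        ((e n (idx n (rem r n)))⁻¹ * rem r n)⁻¹ = _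
      apply Additive.ofMul.injective
      simp only [ofMul_mul, ofMul_inv]
      abel
  refine ⟨j, fun n => h4 n (t n) (ht n).1 (ξ n) _ _ (hx (n + 1)) _ (hrem r hq2 (n + 1)) ?_⟩
  have := (ht (n + 1)).2
  rw [← this] at hj
  exact hj

end

end Pool.Agent.Lib.MP_390819_lc
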