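import Pool.Agent.Lib.MP_390819_lc.Upper
import Pool.Agent.Lib.MP_390819_lc.FinGrp

set_option linter.unusedSectionVars false
set_option linter.overlappingInstances false

open MeasureTheory Set Filter Topology
open scoped Pointwise ENNReal

namespace Pool.Agent.Lib.MP_390819_lc

section
variable {G : Type} [Group G] [TopologicalSpace G] [IsTopologicalGroup G]
  [LocallyCompactSpace G] [T2Space G]

/-- an open subgroup inside `V` with a finite continuous quotient containing a large elementary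
abelian `p`-group -/
def Good (G : Type) [Group G] [TopologicalSpace G] (p : ℕ) (V : Set G) (n : ℕ) : Prop :=
  ∃ (K : Subgroup G) (F : Type) (_ : Group F) (_ : Finite F) (ρ : K →* F),
    (K : Set G) ⊆ V ∧ Function.Surjective ρ ∧ (∃ N ∈ 𝓝 (1 : G), ∀ x ∈ N, ∃ h : x ∈ K, ρ ⟨x, h⟩ = 1) ∧
    ∃ (E : Type) (_ : CommGroup E) (j : E →* F), Function.Injective j ∧ (∀ x : E, x ^ p = 1) ∧
      n ≤ Nat.card E

theorem Good.mono {p : ℕ} {V V' : Set G} {n n' : ℕ} (h : Good G p V n) (hV : V ⊆ V')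
    (hn : n' ≤ n) : Good G p V' n' := by
  obtain ⟨K, F, _, _, ρ, h1, h2, h3, E, _, j, h4, h5, h6⟩ := h
  exact ⟨K, F, inferInstance, inferInstance, ρ, h1.trans hV, h2, h3, E, inferInstance, j, h4, h5,
    hn.trans h6⟩

theorem exists_good {m : ℕ} (hm : 0 < m) {V₀ : Set G} (hV₀ : V₀ ∈ 𝓝 (1 : G))
    (hexp : ∀ g ∈ V₀, g ^ m = 1)
    (hsos : ∀ U ∈ 𝓝 (1 : G), ∃ K : Subgroup G, IsOpen (K : Set G) ∧ (K : Set G) ⊆ U)
    (hinf : ∀ U ∈ 𝓝 (1 : G), U.Infinite) {V : Set G} (hV : V ∈ 𝓝 (1 : G)) (n : ℕ) :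
    ∃ p : ℕ, p.Prime ∧ p ∣ m ∧ Good G p V n := by
  classical
  obtain ⟨R, hR⟩ := exists_elementary m hm n
  obtain ⟨W, hWc, hW⟩ := exists_compact_mem_nhds (1 : G)
  obtain ⟨K, hKo, hK⟩ := hsos _ (inter_mem hW (inter_mem hV hV₀))
  have hKc : IsCompact (K : Set G) :=
    hWc.of_isClosed_subset (K.isClosed_of_isOpen hKo) fun x hx => (hK hx).1
  have : CompactSpace K := isCompact_iff_compactSpace.1 hKc
  obtain ⟨s, hsK, hs⟩ := (hinf _ (hKo.mem_nhds K.one_mem)).exists_subset_card_eq R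
  have hU : (⋂ x ∈ (s ×ˢ s).filter (fun x => x.1 ≠ x.2), ({x.1⁻¹ * x.2} : Set G)ᶜ) ∈ 𝓝 (1 : G) := by
    refine (biInter_finset_mem _).2 fun x hx => isOpen_compl_singleton.mem_nhds ?_
    intro h
    exact (Finset.mem_filter.1 hx).2 (inv_mul_eq_one.1 (Eq.symm h))
  obtain ⟨K₁, hK₁o, hK₁⟩ := hsos _ hU
  have ho : IsOpen ((K₁.subgroupOf K : Subgroup K) : Set K) := hK₁o.preimage continuous_subtype_val
  have : Finite (K ⧸ K₁.subgroupOf K) := Subgroup.quotient_finite_of_isOpen _ ho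
  have : (K₁.subgroupOf K).FiniteIndex := Subgroup.finiteIndex_of_finite_quotient
  let N := (K₁.subgroupOf K).normalCore
  have hNo : IsOpen (N : Set K) := Subgroup.isOpen_of_isClosed_of_finiteIndex _
    (Subgroup.normalCore_isClosed _ (Subgroup.isClosed_of_isOpen _ ho))
  have : Finite (K ⧸ N) := Subgroup.quotient_finite_of_isOpen _ hNo
  obtain ⟨p, hp, hpm, hE⟩ := hR (K ⧸ N) (by
      intro x
      obtain ⟨y, rfl⟩ := QuotientGroup.mk_surjective x
      rw [← QuotientGroup.mk_pow, show y ^ m = 1 from Subtype.ext (hexp y (hK y.2).2.2)]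
      rfl) (by
      rw [← hs, ← Nat.card_eq_finsetCard]
      refine Nat.card_le_card_of_injective
        (fun x : s => (QuotientGroup.mk (⟨x.1, hsK x.2⟩ : K) : K ⧸ N)) fun x y h => ?_
      by_contra hne
      have h1 := (K₁.subgroupOf K).normalCore_le (QuotientGroup.eq.1 h)
      have h2 := mem_iInter₂.1 (hK₁ (Subgroup.mem_subgroupOf.1 h1)) (x.1, y.1)
        (Finset.mem_filter.2 ⟨Finset.mem_product.2 ⟨x.2, y.2⟩, fun h => hne (Subtype.ext h)⟩)
      exact h2 rfl)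
  refine ⟨p, hp, hpm, K, K ⧸ N, inferInstance, inferInstance, QuotientGroup.mk' N,
    fun x hx => (hK hx).2.1, QuotientGroup.mk'_surjective N, ?_, hE⟩
  refine ⟨Subtype.val '' (N : Set K), (hKo.isOpenMap_subtype_val _ hNo).mem_nhds
    ⟨1, N.one_mem, rfl⟩, ?_⟩
  rintro _ ⟨x, hx, rfl⟩
  exact ⟨x.2, (QuotientGroup.eq_one_iff _).2 hx⟩

theorem exists_good_prime {m : ℕ} (hm : 0 < m) {V₀ : Set G} (hV₀ : V₀ ∈ 𝓝 (1 : G))
    (hexp : ∀ g ∈ V₀, g ^ m = 1)
    (hsos : ∀ U ∈ 𝓝 (1 : G), ∃ K : Subgroup G, IsOpen (K : Set G) ∧ (K : Set G) ⊆ U)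
    (hinf : ∀ U ∈ 𝓝 (1 : G), U.Infinite) :
    ∃ p : ℕ, p.Prime ∧ ∀ V ∈ 𝓝 (1 : G), ∀ n, Good G p V n := by
  by_contra hcon
  push Not at hcon
  have : ∀ p : ℕ, ∃ V ∈ 𝓝 (1 : G), ∃ n, p.Prime → ¬ Good G p V n := by
    intro p
    by_cases hp : p.Prime
    · obtain ⟨V, hV, n, h⟩ := hcon p hp
      exact ⟨V, hV, n, fun _ => h⟩
    · exact ⟨univ, univ_mem, 0, fun h => absurd h hp⟩
  choose V hV n hn using this
  obtain ⟨p, hp, hpm, h⟩ := exists_good hm hV₀ hexp hsos hinf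
    ((biInter_finset_mem (Finset.range (m + 1))).2 fun p _ => hV p)
    ((Finset.range (m + 1)).sup n)
  have hp' : p ∈ Finset.range (m + 1) :=
    Finset.mem_range.2 (Nat.lt_succ_of_le (Nat.le_of_dvd hm hpm))
  exact hn p hp (h.mono (fun x hx => mem_iInter₂.1 hx p hp') (Finset.le_sup hp'))

variable [MeasurableSpace G] [BorelSpace G] (μ : Measure G)

theorem gad_of_good {p : ℕ} (hp : p.Prime) (h : ∀ V ∈ 𝓝 (1 : G), ∀ n, Good G p V n)
    (Γ : Type) [AddCommGroup Γ] [Fintype Γ] (hΓ : ∀ x : Γ, p • x = 0) : Gad G μ Γ := by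
  intro V hV W _ η hη
  obtain ⟨K, F, _, _, ρ, hKV, hρ, ⟨N, hN, hNρ⟩, E, _, j, hj, hE, hn⟩ := h V hV (Nat.card Γ)
  have : Finite E := Finite.of_injective j hj
  obtain ⟨π, hπ⟩ := exists_surj hp hE hΓ hn
  obtain ⟨f₀, hf₀⟩ := exists_equivariant K ρ
  obtain ⟨f₁, hf₁⟩ := exists_equivariant j.range
    (π.comp (MonoidHom.ofInjective hj).symm.toMonoidHom)
  choose e he using hπ
  choose k hk using hρ
  refine ⟨fun a => k (j (e (Multiplicative.ofAdd a))), fun a => hKV (k _).2,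
    fun y => (f₁ (f₀ y)).toAdd, fun γ => IsOpen.measurableSet ?_, ∅, MeasurableSet.empty,
    by simp, by simpa using hη.le, fun y _ _ a => ?_⟩
  · rw [isOpen_iff_mem_nhds]
    intro y hy
    have hc : Continuous fun z : G => z * y⁻¹ := by fun_prop
    filter_upwards [hc.continuousAt.preimage_mem_nhds (t := N) (by simpa using hN)] with z hz
    obtain ⟨h1, h2⟩ := hNρ _ hz
    have := hf₀ ⟨_, h1⟩ y
    simp only [inv_mul_cancel_right, h2, one_mul] at this
    simpa [this] using hy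
  · simp only
    rw [hf₀, hk]
    have := hf₁ ⟨j (e (Multiplicative.ofAdd a)), ⟨_, rfl⟩⟩ (f₀ y)
    simp only at this
    rw [this]
    have h2 : (MonoidHom.ofInjective hj).symm ⟨j (e (Multiplicative.ofAdd a)), ⟨_, rfl⟩⟩ =
        e (Multiplicative.ofAdd a) := by
      rw [MulEquiv.symm_apply_eq]; rfl
    simp [h2, he, add_comm]

end

end Pool.Agent.Lib.MP_390819_lc
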