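import Pool.Agent.Lib.MP_390819_lc.Compact

set_option linter.unusedSectionVars false
set_option linter.overlappingInstances false

open MeasureTheory Set Filter Topology
open scoped Pointwise ENNReal

namespace Pool.Agent.Lib.MP_390819_lc

section
variable {G : Type} [Group G] [TopologicalSpace G] [IsTopologicalGroup G]
  [LocallyCompactSpace G] [T2Space G]

theorem count_step {Q B : Set G} (n : ℕ) {q : G} (hq : q ∈ Q) (x : G) :
    ∑ k ∈ Finset.range n, (Q ^ k * B).indicator (fun _ => (1 : ℝ)) x ≤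
      ∑ k ∈ Finset.range n, (Q ^ k * B).indicator (fun _ => (1 : ℝ)) (q * x) + 1 := by
  classical
  have h1 : ∀ k, (Q ^ k * B).indicator (fun _ => (1 : ℝ)) x ≤
      (Q ^ (k + 1) * B).indicator (fun _ => (1 : ℝ)) (q * x) := by
    intro k
    by_cases hx : x ∈ Q ^ k * B
    · have : q * x ∈ Q ^ (k + 1) * B := by
        rw [pow_succ', mul_assoc]; exact mul_mem_mul hq hx
      simp [hx, this]
    · simp only [indicator_of_notMem hx]
      exact indicator_nonneg (fun _ _ => zero_le_one) _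
  refine (Finset.sum_le_sum fun k _ => h1 k).trans ?_
  have h2 := Finset.sum_range_succ' (fun k => (Q ^ k * B).indicator (fun _ => (1 : ℝ)) (q * x)) n
  have h3 := Finset.sum_range_succ (fun k => (Q ^ k * B).indicator (fun _ => (1 : ℝ)) (q * x)) n
  have h4 : 0 ≤ (Q ^ 0 * B).indicator (fun _ => (1 : ℝ)) (q * x) :=
    indicator_nonneg (fun _ _ => zero_le_one) _
  have h5 : (Q ^ n * B).indicator (fun _ => (1 : ℝ)) (q * x) ≤ 1 :=
    indicator_le_self' (fun _ _ => zero_le_one) _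
  linarith

theorem gleason {m : ℕ} (hm : 0 < m) {U : Set G} (hU : IsCompact U) :
    ∃ U' : Set G, IsCompact U' ∧ ∀ C : ℕ, ∃ V ∈ 𝓝 (1 : G), ∀ V' ⊆ V, (1 : G) ∈ V' → ∀ n, 0 < n →
      tiny m V' ^ n ⊆ U → tiny m V' ^ (n * C) ⊆ U' := by
  classical
  borelize G
  let μ : Measure G := Measure.haar
  obtain ⟨N, hN, hNc, hNi, -⟩ := exists_nice (univ_mem : (univ : Set G) ∈ 𝓝 (1 : G))
  have hB1 : (1 : G) ∈ interior N := mem_interior_iff_mem_nhds.2 hN
  obtain ⟨σ, hσ1, hσ0, hσc, hσb⟩ := exists_continuous_one_zero_of_isCompact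
    (isCompact_singleton (x := (1 : G))) (t := (interior N)ᶜ) isOpen_interior.isClosed_compl
    (by simpa using hB1)
  have hc₀ : 0 < ∫ y, σ y ∂μ := σ.continuous.integral_pos_of_hasCompactSupport_nonneg_nonzero hσc
    (fun x => (hσb x).1) (x := 1) (by rw [hσ1 rfl]; simp)
  set c₀ := ∫ y, σ y ∂μ with hc₀d
  have hS : IsCompact (N * (U * N)) := hNc.mul (hU.mul hNc)
  set M := μ.real (N * (U * N)) with hM
  have hM0 : 0 ≤ M := measureReal_nonneg
  refine ⟨U * N * N, (hU.mul hNc).mul hNc, fun C => ?_⟩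
  obtain ⟨V, hV, hVσ⟩ := unif_small σ.continuous hσc hS (ε := c₀ / (2 * (C + 1) * (M + 1)))
    (by positivity)
  refine ⟨V ∩ N, inter_mem hV hN, fun V' hV' h1V n hn hQU g hg => ?_⟩
  set Q := tiny m V' with hQ
  have h1Q : (1 : G) ∈ Q := ⟨one_pow m, fun j => by simpa using h1V⟩
  have hn' : (0 : ℝ) < n := by exact_mod_cast hn
  let ψ : G → ℝ := fun x =>
    (∑ k ∈ Finset.range n, (Q ^ k * interior N).indicator (fun _ => (1 : ℝ)) x) / n
  have hψm : Measurable ψ := by
    refine Measurable.div_const (Finset.measurable_sum _ fun k _ => ?_) _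
    exact measurable_const.indicator isOpen_interior.mul_left.measurableSet
  have hψb : ∀ y, |ψ y| ≤ 1 := by
    intro y
    rw [abs_of_nonneg (div_nonneg (Finset.sum_nonneg fun k _ =>
      indicator_nonneg (fun _ _ => zero_le_one) _) hn'.le), div_le_one hn']
    refine (Finset.sum_le_sum (g := fun _ => (1 : ℝ)) fun k _ =>
      indicator_le_self' (fun _ _ => zero_le_one) _).trans (by simp)
  have hψ0 : ∀ y, y ∉ U * N → ψ y = 0 := by
    intro y hy
    simp only [ψ]
    rw [Finset.sum_eq_zero, zero_div]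
    intro k hk
    refine indicator_of_notMem (fun h => hy ?_) _
    exact mul_subset_mul ((Set.pow_subset_pow_right h1Q (Finset.mem_range.1 hk).le).trans hQU)
      interior_subset h
  have hψ1 : ∀ y ∈ interior N, ψ y = 1 := by
    intro y hy
    simp only [ψ]
    rw [Finset.sum_congr rfl (g := fun _ => (1 : ℝ))]
    · simp [hn'.ne']
    · intro k _
      have hm' : y ∈ Q ^ k * interior N := ⟨1, Set.one_mem_pow h1Q, y, hy, one_mul y⟩
      simp [hm']
  have hψq : ∀ q ∈ Q, ∀ y, |ψ (q * y) - ψ y| ≤ 1 / n := by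
    intro q hq y
    have h1 := count_step (B := interior N) n hq y
    have h2 := count_step (B := interior N) n (tiny_inv q hq) (q * y)
    rw [inv_mul_cancel_left] at h2
    simp only [ψ]
    rw [← sub_div, abs_div, abs_of_pos hn']
    exact div_le_div_of_nonneg_right (abs_le.2 ⟨by linarith, by linarith⟩) hn'.le
  have hstep : ∀ q ∈ Q, ∀ x, |cv μ σ ψ (q * x) - cv μ σ ψ x| ≤
      1 / n * (c₀ / (2 * (C + 1) * (M + 1))) * M := by
    intro q hq x
    have hqN : q ∈ N := (hV' (tiny_subset hq)).2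
    refine cv_gain μ σ.continuous hσc hψm hψb hS (V := V') (fun g hg => hVσ g (hV' hg).1) hm hq
      (fun y hy => ?_) (hψq q hq) x
    rw [hψ0 y fun h => hy ⟨1, mem_of_mem_nhds hN, y, h, one_mul y⟩,
      hψ0 (q * y) fun h => hy ⟨q⁻¹, hNi q hqN, _, h, by simp⟩, sub_zero]
  have h1 := word_step _ Q hstep (n * C) g hg 1
  have h2 : cv μ σ ψ 1 = c₀ := by
    simp only [cv, inv_one, one_mul, hc₀d]
    congr 1; ext y
    by_cases hy : y ∈ interior N
    · rw [hψ1 y hy, one_mul]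
    · rw [hσ0 hy]; simp
  by_contra hcon
  have h3 : cv μ σ ψ g = 0 := by
    simp only [cv]
    rw [← integral_zero G ℝ (μ := μ)]
    congr 1; ext y
    by_cases hy : g⁻¹ * y ∈ interior N
    · rw [hψ0 y fun h => hcon ⟨y, h, _, hNi _ (interior_subset hy), by simp⟩, zero_mul]
    · rw [hσ0 hy]; simp
  rw [mul_one, h2, h3, zero_sub, abs_neg, abs_of_pos hc₀] at h1
  have h4 : ((n * C : ℕ) : ℝ) * (1 / n * (c₀ / (2 * (C + 1) * (M + 1))) * M) =
      c₀ * (C / (C + 1)) * (M / (M + 1)) / 2 := by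
    push_cast; field_simp
  rw [h4] at h1
  have h5 : (C : ℝ) / (C + 1) ≤ 1 := by rw [div_le_one (by positivity)]; linarith
  have h6 : M / (M + 1) ≤ 1 := by rw [div_le_one (by positivity)]; linarith
  have h7 : c₀ * (C / (C + 1)) * (M / (M + 1)) ≤ c₀ * 1 * 1 := by gcongr
  linarith

/-- limit points of a sequence of sets along an ultrafilter -/
def Lim (u : Ultrafilter ℕ) (S : ℕ → Set G) : Set G :=
  {x | ∀ O ∈ 𝓝 x, ∀ᶠ i in (u : Filter ℕ), (O ∩ S i).Nonempty}

theorem Lim.mul {u : Ultrafilter ℕ} {S S' : ℕ → Set G} {x y : G} (hx : x ∈ Lim u S)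
    (hy : y ∈ Lim u S') : x * y ∈ Lim u fun i => S i * S' i := by
  intro O hO
  have := tendsto_mul hO
  rw [nhds_prod_eq, mem_map, mem_prod_iff] at this
  obtain ⟨A, hA, B, hB, h⟩ := this
  filter_upwards [hx A hA, hy B hB] with i ⟨a, ha, ha'⟩ ⟨b, hb, hb'⟩
  exact ⟨a * b, h (mk_mem_prod ha hb), mul_mem_mul ha' hb'⟩

theorem Lim.inv {u : Ultrafilter ℕ} {S : ℕ → Set G} (hS : ∀ i, ∀ x ∈ S i, x⁻¹ ∈ S i) {x : G}
    (hx : x ∈ Lim u S) : x⁻¹ ∈ Lim u S := by
  intro O hO
  filter_upwards [hx _ (continuous_inv.continuousAt.preimage_mem_nhds hO)] with i ⟨a, ha, ha'⟩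
  exact ⟨a⁻¹, ha, hS i a ha'⟩

theorem Lim.subset {u : Ultrafilter ℕ} {S : ℕ → Set G} {K : Set G} (hK : IsClosed K)
    (h : ∀ᶠ i in (u : Filter ℕ), S i ⊆ K) : Lim u S ⊆ K := by
  intro x hx
  by_contra hcon
  obtain ⟨i, ⟨a, ha, ha'⟩, hi⟩ := ((hx _ (hK.isOpen_compl.mem_nhds hcon)).and h).exists
  exact ha (hi ha')

theorem Lim.exists {u : Ultrafilter ℕ} {S : ℕ → Set G} {K : Set G} (hK : IsCompact K)
    (h : ∀ᶠ i in (u : Filter ℕ), (K ∩ S i).Nonempty) : (K ∩ Lim u S).Nonempty := by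
  have : ∀ i, ∃ x : G, (K ∩ S i).Nonempty → x ∈ K ∩ S i := fun i => by
    by_cases hi : (K ∩ S i).Nonempty
    · exact ⟨hi.some, fun _ => hi.some_mem⟩
    · exact ⟨1, fun h => absurd h hi⟩
  choose x hx using this
  obtain ⟨a, ha, hle⟩ := hK.ultrafilter_le_nhds (u.map x) (by
    rw [le_principal_iff]
    exact h.mono fun i hi => (hx i hi).1)
  refine ⟨a, ha, fun O hO => ?_⟩
  have h2 : ∀ᶠ i in (u : Filter ℕ), x i ∈ O := hle hO
  filter_upwards [h, h2] with i hi hi'
  exact ⟨x i, hi', (hx i hi).2⟩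

theorem Lim.chain {u : Ultrafilter ℕ} {Q : ℕ → Set G} (h1 : ∀ i, (1 : G) ∈ Q i)
    (hQ : ∀ V ∈ 𝓝 (1 : G), ∀ᶠ i in (u : Filter ℕ), Q i ⊆ V) (N : ℕ → ℕ) {K : Set G}
    (hK : IsCompact K) (hQK : ∀ᶠ i in (u : Filter ℕ), Q i ^ N i ⊆ K) {A A' : Set G}
    (hA : IsCompact A) (hA' : IsClosed A') (hd : Disjoint A A') (h1A : (1 : G) ∈ A)
    (hsub : Lim u (fun i => Q i ^ N i) ⊆ A ∪ A') : Lim u (fun i => Q i ^ N i) ⊆ A := by
  obtain ⟨W, hW, hAW⟩ := compact_open_separated_mul_right hA hA'.isOpen_compl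
    hd.subset_compl_right
  obtain ⟨V, hV, -, hVi, hVW⟩ := exists_nice hW
  have h1V : (1 : G) ∈ interior V := mem_interior_iff_mem_nhds.2 hV
  have hjump : ∀ x ∈ A * interior V, ∀ q ∈ V, x * q ∉ A' * interior V := by
    rintro _ ⟨a, ha, v, hv, rfl⟩ q hq ⟨a', ha', v', hv', h⟩
    refine hAW (mul_mem_mul ha (hVW v (interior_subset hv) q hq _ (hVi v' (interior_subset hv'))
      1 (interior_subset h1V))) ?_
    simp only at h
    have : a * (v * q * v'⁻¹ * 1) = a' := by
      rw [mul_one, ← mul_assoc, ← mul_assoc, ← h]; simp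
    rw [this]; exact ha'
  have hev : ∀ᶠ i in (u : Filter ℕ), Q i ^ N i ⊆ A * interior V ∪ A' * interior V := by
    by_contra hcon
    rw [← Ultrafilter.eventually_not] at hcon
    obtain ⟨x, hx, hx'⟩ := Lim.exists (u := u) (S := fun i => Q i ^ N i)
      (hK.diff ((isOpen_interior (s := V)).mul_left (s := A) |>.union
        ((isOpen_interior (s := V)).mul_left (s := A')))) (by
        filter_upwards [hcon, hQK] with i hi hi'
        obtain ⟨x, hx, hx'⟩ := not_subset.1 hi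
        exact ⟨x, ⟨hi' hx, hx'⟩, hx⟩)
    rcases hsub hx' with h | h
    · exact hx.2 (Or.inl ⟨x, h, 1, h1V, mul_one x⟩)
    · exact hx.2 (Or.inr ⟨x, h, 1, h1V, mul_one x⟩)
  have hfin : ∀ᶠ i in (u : Filter ℕ), Q i ^ N i ⊆ (A' * interior V)ᶜ := by
    filter_upwards [hev, hQ V hV] with i hi hi'
    have key : ∀ j, j ≤ N i → Q i ^ j ⊆ A * interior V := by
      intro j
      induction j with
      | zero => intro _ x hx; simp at hx; exact ⟨1, h1A, 1, h1V, by simp [hx]⟩
      | succ j ih =>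
        intro hj x hx
        refine (hi (Set.pow_subset_pow_right (h1 i) hj hx)).resolve_right ?_
        rw [pow_succ] at hx
        obtain ⟨y, hy, q, hq, rfl⟩ := hx
        exact hjump y (ih (by omega) hy) q (hi' hq)
    intro x hx
    simpa using hjump x (key _ le_rfl hx) 1 (interior_subset h1V)
  intro x hx
  refine (hsub hx).resolve_right fun h => ?_
  exact Lim.subset isOpen_interior.mul_left.isClosed_compl hfin hx ⟨x, h, 1, h1V, mul_one x⟩

theorem small_open_subgroups [SecondCountableTopology G] {m : ℕ} (hm : 0 < m) {V₀ : Set G}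
    (hV₀ : V₀ ∈ 𝓝 (1 : G)) (hexp : ∀ g ∈ V₀, g ^ m = 1) :
    ∀ U ∈ 𝓝 (1 : G), ∃ K : Subgroup G, IsOpen (K : Set G) ∧ (K : Set G) ⊆ U := by
  classical
  intro U₁ hU₁
  by_contra hcon
  push Not at hcon
  obtain ⟨U, hU, hUU, hUc⟩ := local_compact_nhds hU₁
  obtain ⟨U₀, hU₀, -, -, hU₀U⟩ := exists_nice hU
  have h10 : (1 : G) ∈ U₀ := mem_of_mem_nhds hU₀
  obtain ⟨U', hU'c, hU'⟩ := gleason hm hUc
  obtain ⟨b, hb⟩ := (𝓝 (1 : G)).exists_antitone_basis
  let u : Ultrafilter ℕ := hyperfilter ℕ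
  let Q : ℕ → Set G := fun i => tiny m (b i ∩ U₀)
  have hbn : ∀ i, b i ∩ U₀ ∈ 𝓝 (1 : G) := fun i => inter_mem (hb.mem i) hU₀
  have hQn : ∀ i, Q i ∈ 𝓝 (1 : G) := fun i => tiny_mem_nhds hm hV₀ hexp (hbn i)
  have hQ1 : ∀ i, (1 : G) ∈ Q i := fun i => mem_of_mem_nhds (hQn i)
  have hbV : ∀ V ∈ 𝓝 (1 : G), ∀ᶠ i in (u : Filter ℕ), b i ∩ U₀ ⊆ V := by
    intro V hV
    have := hb.eventually_subset hV
    rw [← Nat.cofinite_eq_atTop] at this
    have h2 : ∀ᶠ i in (u : Filter ℕ), b i ⊆ V := hyperfilter_le_cofinite this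
    exact h2.mono fun i hi => inter_subset_left.trans hi
  have hQV : ∀ V ∈ 𝓝 (1 : G), ∀ᶠ i in (u : Filter ℕ), Q i ⊆ V := fun V hV =>
    (hbV V hV).mono fun i hi => tiny_subset.trans hi
  have hn : ∀ i, ∃ n, 0 < n ∧ Q i ^ n ⊆ U ∧ ¬ Q i ^ (n + 1) ⊆ U := by
    intro i
    have hex : ∃ k, ¬ Q i ^ k ⊆ U := by
      by_contra h
      push Not at h
      exact hcon _ (words_isOpen tiny_inv (hQn i)) ((iUnion_subset h).trans hUU)
    have h0 : Nat.find hex ≠ 0 := fun h => by
      have := Nat.find_spec hex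
      rw [h] at this
      exact this (by simpa using mem_of_mem_nhds hU)
    have h1 : Nat.find hex ≠ 1 := fun h => by
      have := Nat.find_spec hex
      rw [h, pow_one] at this
      exact this fun x hx => by simpa using hU₀U x (tiny_subset hx).2 1 h10 1 h10 1 h10
    refine ⟨Nat.find hex - 1, by omega, not_not.1 (Nat.find_min hex (by omega)), ?_⟩
    rw [show Nat.find hex - 1 + 1 = Nat.find hex by omega]
    exact Nat.find_spec hex
  choose n hn0 hnU hnU' using hn
  have hpow : ∀ k, ∀ᶠ i in (u : Filter ℕ), Q i ^ (n i * k) ⊆ U' := by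
    intro k
    obtain ⟨V, hV, h⟩ := hU' k
    filter_upwards [hbV V hV] with i hi
    exact h _ hi (mem_of_mem_nhds (hbn i)) _ (hn0 i) (hnU i)
  let H₀ : Subgroup G :=
    { carrier := ⋃ k : ℕ, Lim u fun i => Q i ^ (n i * k)
      one_mem' := mem_iUnion.2 ⟨0, fun O hO => Eventually.of_forall fun i =>
        ⟨1, mem_of_mem_nhds hO, by simp⟩⟩
      mul_mem' := by
        intro x y hx hy
        obtain ⟨k, hk⟩ := mem_iUnion.1 hx
        obtain ⟨l, hl⟩ := mem_iUnion.1 hy
        exact mem_iUnion.2 ⟨k + l, by simpa only [mul_add, pow_add] using Lim.mul hk hl⟩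
      inv_mem' := by
        intro x hx
        obtain ⟨k, hk⟩ := mem_iUnion.1 hx
        exact mem_iUnion.2 ⟨k, Lim.inv (fun i x hx => inv_mem_pow tiny_inv hx) hk⟩ }
  let H := H₀.topologicalClosure
  have hHc : IsCompact (H : Set G) :=
    hU'c.of_isClosed_subset H₀.isClosed_topologicalClosure (closure_minimal
      (iUnion_subset fun k => Lim.subset hU'c.isClosed (hpow k)) hU'c.isClosed)
  have : CompactSpace H := isCompact_iff_compactSpace.1 hHc
  obtain ⟨x, hx, hx'⟩ := Lim.exists (u := u) (S := fun i => Q i ^ (n i * 1))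
    (hUc.diff (isOpen_interior (s := U₀))) (Eventually.of_forall fun i => by
      obtain ⟨z, hz, hzU⟩ := not_subset.1 (hnU' i)
      rw [pow_succ] at hz
      obtain ⟨y, hy, q, hq, rfl⟩ := hz
      refine ⟨y, ⟨hnU i hy, fun h => hzU ?_⟩, by simpa using hy⟩
      simpa using hU₀U y (interior_subset h) q (tiny_subset hq).2 1 h10 1 h10)
  have hxH : x ∈ H := H₀.le_topologicalClosure (mem_iUnion.2 ⟨1, hx'⟩)
  have : SecondCountableTopology H := TopologicalSpace.Subtype.secondCountableTopology _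
  borelize ↥H
  have := compact_trivial (K := H) Measure.haar hm (V₀ := Subtype.val ⁻¹' V₀)
    (continuous_subtype_val.continuousAt.preimage_mem_nhds hV₀)
    (fun g hg => Subtype.ext (hexp g hg)) (by
      intro H' hH'
      have hA : IsCompact (Subtype.val '' (H' : Set H)) :=
        (H'.isClosed_of_isOpen hH').isCompact.image continuous_subtype_val
      have hA' : IsCompact (Subtype.val '' (H' : Set H)ᶜ) :=
        hH'.isClosed_compl.isCompact.image continuous_subtype_val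
      have hsub : (H₀ : Set G) ⊆ Subtype.val '' (H' : Set H) := by
        refine iUnion_subset fun k => Lim.chain hQ1 hQV (fun i => n i * k) hU'c (hpow k) hA
          hA'.isClosed ((disjoint_image_iff Subtype.val_injective).2 disjoint_compl_right)
          ⟨1, H'.one_mem, rfl⟩ fun y hy => ?_
        rw [← image_union, union_compl_self]
        exact ⟨⟨y, H₀.le_topologicalClosure (mem_iUnion.2 ⟨k, hy⟩)⟩, mem_univ _, rfl⟩
      rw [eq_top_iff]
      intro y _
      obtain ⟨z, hz, h⟩ := closure_minimal hsub hA.isClosed y.2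
      rwa [← Subtype.ext h]) ⟨x, hxH⟩
  have hx1 : x = 1 := congrArg Subtype.val this
  exact hx.2 (by rw [hx1]; exact mem_interior_iff_mem_nhds.2 hU₀)

end

end Pool.Agent.Lib.MP_390819_lc
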