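import Pool.Agent.Lib.MP_390819_lc.Basic

set_option linter.unusedSectionVars false
set_option linter.overlappingInstances false

open MeasureTheory Set Filter Topology
open scoped Pointwise ENNReal

namespace Pool.Agent.Lib.MP_390819_lc

theorem exists_multi {k : ℕ} (m : Fin k → ℕ) : ∃ φ : Fin (∑ j, m j) → Fin k,
    ∀ J : Finset (Fin k), (Finset.univ.filter fun i => φ i ∈ J).card = ∑ j ∈ J, m j := by
  classical
  let e : (Σ j : Fin k, Fin (m j)) ≃ Fin (∑ j, m j) := Fintype.equivFinOfCardEq (by simp)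
  refine ⟨fun i => (e.symm i).1, fun J => ?_⟩
  have : (J.sigma fun j => (Finset.univ : Finset (Fin (m j)))).card = ∑ j ∈ J, m j := by simp
  rw [← this]
  refine (Finset.card_bij (fun x _ => e x) ?_ ?_ ?_).symm
  · intro x hx; simpa using hx
  · intro x _ y _ h; exact e.injective h
  · intro i hi; exact ⟨e.symm i, by simpa using hi, by simp⟩

theorem exists_perm_half (k : ℕ) (K : Finset (Fin k)) (hK : K.card ≤ k / 2) :
    ∃ σ : Equiv.Perm (Fin k), ∀ i ∈ K, (σ⁻¹ i).val < k / 2 := by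
  obtain ⟨σ, hσ⟩ := Equiv.Perm.exists_extending_pair (α := K)
    (fun x => Fin.castLE (hK.trans (Nat.div_le_self k 2)) (K.equivFin x)) (fun x => (x : Fin k))
    ((Fin.castLE_injective _).comp K.equivFin.injective) Subtype.val_injective
  refine ⟨σ, fun i hi => ?_⟩
  have := hσ ⟨i, hi⟩
  simp only at this
  rw [← this]
  simpa using (K.equivFin ⟨i, hi⟩).2.trans_le hK

section
variable {G : Type} [Group G] [TopologicalSpace G] [IsTopologicalGroup G]
  [LocallyCompactSpace G] [T2Space G] [MeasurableSpace G] [BorelSpace G]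
  (μ : Measure G) [μ.IsHaarMeasure] [μ.Regular]

open Classical in
theorem sym_step {C : Set G} (hC : IsCompact C) (h0 : μ C = 0)
    {W : Set G} (hW : W ∈ 𝓝 (1 : G)) (D : Finset G) (b₀ : ℕ) :
    ∃ (W' : Set G) (D' : Finset G) (b : ℕ), W' ∈ 𝓝 (1 : G) ∧ IsCompact W' ∧ b₀ < b ∧
      ∃ x : ℕ → G, (∀ i, ∀ w ∈ W', x i * w ∈ W) ∧ (∀ t ∈ D, ∀ i, t * x i ∈ D') ∧
        ∀ a : G, (Finset.univ.filter fun i : Fin b =>
          ∃ t ∈ D, ∃ w ∈ W', a⁻¹ * (t * x i * w) ∈ C).card ≤ b / 2 := by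
  obtain ⟨V, hV, hVc, hVi, hVW⟩ := exists_nice hW
  have h1 : (1 : G) ∈ V := mem_of_mem_nhds hV
  have hV0 := real_pos_of_nhds μ hV hVc
  obtain ⟨O, hO, hOf, hOm, V₁, hV₁, hCO⟩ := exists_thick_right μ hC h0
    (η := μ.real V / (4 * (D.card + 1))) (by positivity)
  obtain ⟨W', hW', hW'c, hW'i, hW'V⟩ := exists_nice (inter_mem hV hV₁)
  have h1' : (1 : G) ∈ W' := mem_of_mem_nhds hW'
  obtain ⟨s, hsV, hs⟩ := exists_net hVc (interior_mem_nhds.2 hW')
  let c : Fin s.card → G := fun j => (s.equivFin.symm j : G)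
  have hcV : ∀ j, c j ∈ V := fun j => hsV _ (s.equivFin.symm j).2
  let A : Fin s.card → Set G := fun j => V ∩ {y | (c j)⁻¹ * y ∈ interior W'}
  have hA : ∀ j, MeasurableSet (A j) := fun j =>
    hVc.measurableSet.inter (measurable_const_mul _ isOpen_interior.measurableSet)
  let P : Fin s.card → Set G := fun j => A j \ ⋃ i ∈ Finset.univ.filter (· < j), A i
  have hP : ∀ j, MeasurableSet (P j) := fun j =>
    (hA j).diff (Finset.measurableSet_biUnion _ fun i _ => hA i)
  have hVf : μ V ≠ ⊤ := hVc.measure_lt_top.ne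
  have hPf : ∀ j, μ (P j) ≠ ⊤ := fun j =>
    measure_ne_top_of_subset (sdiff_subset.trans inter_subset_left) hVf
  have hPd : ∀ i j, i ≠ j → Disjoint (P i) (P j) := by
    have key : ∀ i j, i < j → Disjoint (P i) (P j) := fun i j hij =>
      Set.disjoint_left.2 fun y hy hy' => hy'.2 (mem_iUnion₂.2 ⟨i, by simpa using hij, hy.1⟩)
    intro i j hij
    rcases lt_or_gt_of_ne hij with h | h
    · exact key i j h
    · exact (key j i h).symm
  have hcov : V ⊆ ⋃ j ∈ (Finset.univ : Finset (Fin s.card)), P j := by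
    intro y hy
    obtain ⟨z, hz, h⟩ := hs y hy
    have hne : (Finset.univ.filter fun j => y ∈ A j).Nonempty :=
      ⟨s.equivFin ⟨z, hz⟩, by simpa [A, c] using ⟨hy, h⟩⟩
    refine mem_iUnion₂.2 ⟨_, Finset.mem_univ ((Finset.univ.filter fun j => y ∈ A j).min' hne),
      (Finset.mem_filter.1 (Finset.min'_mem _ hne)).2, fun h => ?_⟩
    obtain ⟨i, hi, hi'⟩ := mem_iUnion₂.1 h
    exact absurd (Finset.min'_le _ i (Finset.mem_filter.2 ⟨Finset.mem_univ _, hi'⟩))
      (not_le.2 (Finset.mem_filter.1 hi).2)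
  obtain ⟨M, hM⟩ := exists_nat_gt ((b₀ + 4 * D.card * s.card) / μ.real V)
  rw [div_lt_iff₀ hV0] at hM
  let m : Fin s.card → ℕ := fun j => ⌈M * μ.real (P j)⌉₊
  obtain ⟨φ, hφ⟩ := exists_multi m
  have hb : M * μ.real V ≤ (∑ j, m j : ℕ) := by
    have := (measureReal_mono hcov (measure_biUnion_lt_top (Finset.finite_toSet _)
      fun j _ => (hPf j).lt_top).ne).trans (measureReal_biUnion_finset_le _ _)
    refine (mul_le_mul_of_nonneg_left this (by positivity)).trans ?_
    rw [Finset.mul_sum]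
    push_cast
    exact Finset.sum_le_sum fun j _ => Nat.le_ceil _
  let x : ℕ → G := fun i => if h : i < ∑ j, m j then c (φ ⟨i, h⟩) else 1
  have hxV : ∀ i, x i ∈ V := fun i => by
    simp only [x]; split_ifs
    · exact hcV _
    · exact h1
  refine ⟨W', (D ×ˢ insert 1 (Finset.univ.image c)).image fun y => y.1 * y.2, ∑ j, m j, hW', hW'c,
    ?_, x, ?_, ?_, fun a => ?_⟩
  · have : (b₀ : ℝ) < (∑ j, m j : ℕ) := by
      have : (0 : ℝ) ≤ 4 * D.card * s.card := by positivity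
      linarith
    exact_mod_cast this
  · intro i w hw
    have hw' : w ∈ V := by simpa using (hW'V w hw 1 h1' 1 h1' 1 h1').1
    simpa using hVW _ (hxV i) w hw' 1 h1 1 h1
  · intro t ht i
    refine Finset.mem_image.2 ⟨(t, x i), Finset.mem_product.2 ⟨ht, ?_⟩, rfl⟩
    simp only [x]; split_ifs <;> simp
  · let J : G → Finset (Fin s.card) := fun t =>
      Finset.univ.filter fun j => ∃ w ∈ W', a⁻¹ * (t * c j * w) ∈ C
    have hJ : ∀ t, (∑ j ∈ J t, m j : ℕ) ≤ M * (μ.real V / (4 * (D.card + 1))) + s.card := by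
      intro t
      have h2 : ∑ j ∈ J t, μ.real (P j) ≤ μ.real V / (4 * (D.card + 1)) := by
        rw [← measureReal_biUnion_finset (fun i _ j _ h => hPd i j h) (fun j _ => hP j)
          (fun j _ => hPf j)]
        refine le_trans (measureReal_mono (s₂ := {y | a⁻¹ * t * y ∈ O}) ?_
          (preimage_mul_ne_top μ _ hOf)) (by rw [real_preimage_mul]; exact hOm)
        refine iUnion₂_subset fun j hj y hy => ?_
        obtain ⟨w, hw, h⟩ := (Finset.mem_filter.1 hj).2
        have := hCO _ h _ (hW'V _ (hW'i w hw) _ (interior_subset hy.1.2) 1 h1' 1 h1').2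
        simp only [mem_ofPred_eq]
        convert this using 1; group
      push_cast
      refine (Finset.sum_le_sum (g := fun j => M * μ.real (P j) + 1) fun j _ =>
        (Nat.ceil_lt_add_one (by positivity)).le).trans ?_
      rw [Finset.sum_add_distrib, ← Finset.mul_sum]
      refine add_le_add (mul_le_mul_of_nonneg_left h2 (by positivity)) ?_
      simpa using Finset.card_le_univ (J t)
    have hsub : (Finset.univ.filter fun i : Fin (∑ j, m j) =>
        ∃ t ∈ D, ∃ w ∈ W', a⁻¹ * (t * x i * w) ∈ C) ⊆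
        D.biUnion fun t => Finset.univ.filter fun i => φ i ∈ J t := by
      intro i hi
      obtain ⟨t, ht, w, hw, h⟩ := (Finset.mem_filter.1 hi).2
      refine Finset.mem_biUnion.2 ⟨t, ht, Finset.mem_filter.2 ⟨Finset.mem_univ _,
        Finset.mem_filter.2 ⟨Finset.mem_univ _, w, hw, ?_⟩⟩⟩
      simpa [x] using h
    have h3 := (Finset.card_le_card hsub).trans Finset.card_biUnion_le
    simp only [hφ] at h3
    rw [Nat.le_div_iff_mul_le two_pos]
    refine (Nat.mul_le_mul_right 2 h3).trans ?_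
    have h4 : ((∑ t ∈ D, ∑ j ∈ J t, m j : ℕ) : ℝ) ≤
        D.card * (M * (μ.real V / (4 * (D.card + 1))) + s.card) := by
      rw [Nat.cast_sum]
      exact (Finset.sum_le_sum fun t _ => hJ t).trans (by simp [mul_add])
    have h5 : (D.card : ℝ) * (M * (μ.real V / (4 * (D.card + 1)))) ≤ M * μ.real V / 4 := by
      rw [mul_div_assoc', mul_div_assoc', div_le_div_iff₀ (by positivity) (by positivity)]
      have : (0 : ℝ) ≤ M * μ.real V := by positivity
      nlinarith
    have h6 : ((∑ t ∈ D, ∑ j ∈ J t, m j : ℕ) : ℝ) * 2 ≤ (∑ j, m j : ℕ) := by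
      have : (0 : ℝ) ≤ b₀ := by positivity
      nlinarith
    exact_mod_cast h6

variable [∀ n, TopologicalSpace (Equiv.Perm (Fin n))] [∀ n, DiscreteTopology (Equiv.Perm (Fin n))]
  [MeasurableSpace (∀ n, Equiv.Perm (Fin n))] [BorelSpace (∀ n, Equiv.Perm (Fin n))]
  (ρ : Measure (∀ n, Equiv.Perm (Fin n))) [ρ.IsHaarMeasure]

omit [TopologicalSpace G] [IsTopologicalGroup G]
  [LocallyCompactSpace G] [T2Space G] [MeasurableSpace G] [BorelSpace G] in
theorem half_null (b : ℕ → ℕ) (hb : Function.Injective b) (hb0 : ∀ n, 0 < b n) :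
    IsCompact {s : ∀ n, Equiv.Perm (Fin n) | ∀ n, (s (b n) ⟨0, hb0 n⟩).val < b n / 2} ∧
      ρ {s : ∀ n, Equiv.Perm (Fin n) | ∀ n, (s (b n) ⟨0, hb0 n⟩).val < b n / 2} = 0 := by
  classical
  have : ∀ n, IsTopologicalGroup (Equiv.Perm (Fin n)) := fun n => inferInstance
  have hcl : ∀ n, IsClosed {s : ∀ n, Equiv.Perm (Fin n) | (s (b n) ⟨0, hb0 n⟩).val < b n / 2} :=
    fun n => by
      have hc : Continuous fun s : (∀ n, Equiv.Perm (Fin n)) => s (b n) := continuous_apply (b n)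
      exact (isClosed_discrete
        {σ : Equiv.Perm (Fin (b n)) | (σ ⟨0, hb0 n⟩).val < b n / 2}).preimage hc
  let E : ℕ → Set (∀ n, Equiv.Perm (Fin n)) := fun m =>
    {s | ∀ n < m, (s (b n) ⟨0, hb0 n⟩).val < b n / 2}
  have hE : ∀ m, MeasurableSet (E m) := fun m => by
    have : E m = ⋂ n ∈ Finset.range m,
      {s : ∀ n, Equiv.Perm (Fin n) | (s (b n) ⟨0, hb0 n⟩).val < b n / 2} := by
      ext s; simp [E]
    rw [this]; exact Finset.measurableSet_biInter _ fun n _ => (hcl n).measurableSet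
  have hfin : ∀ S, ρ S ≠ ⊤ := fun S =>
    measure_ne_top_of_subset (subset_univ S) isCompact_univ.measure_lt_top.ne
  have hstep : ∀ m, 2 * ρ.real (E (m + 1)) ≤ ρ.real (E m) := by
    intro m
    let τ : ∀ n, Equiv.Perm (Fin n) := fun k => if k = b m then Fin.revPerm else 1
    have h1 : ρ.real {s | τ * s ∈ E (m + 1)} = ρ.real (E (m + 1)) := real_preimage_mul ρ τ _
    have h2 : Disjoint (E (m + 1)) {s | τ * s ∈ E (m + 1)} := by
      refine Set.disjoint_left.2 fun s hs hs' => ?_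
      have a1 := hs m (Nat.lt_succ_self m)
      have a2 := hs' m (Nat.lt_succ_self m)
      simp only [τ, Pi.mul_apply, if_true, Equiv.Perm.mul_apply, Fin.revPerm_apply,
        Fin.val_rev] at a2
      omega
    have h3 := measureReal_union h2 (measurable_const_mul τ (hE (m + 1))) (hfin _) (hfin _)
    rw [two_mul]
    nth_rewrite 2 [← h1]
    rw [← h3]
    refine measureReal_mono (union_subset (fun s hs n hn => hs n (by omega)) fun s hs n hn => ?_)
      (hfin _)
    have := hs n (by omega)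
    simpa [τ, hb.ne hn.ne] using this
  have hpow : ∀ m, ρ.real (E m) ≤ ρ.real (E 0) * (1 / 2) ^ m := by
    intro m
    induction m with
    | zero => simp
    | succ m ih => have := hstep m; rw [pow_succ]; linarith
  refine ⟨IsClosed.isCompact (by rw [ofPred_forall]; exact isClosed_iInter hcl), ?_⟩
  rw [← measureReal_eq_zero_iff (hfin _)]
  refine le_antisymm (ge_of_tendsto' (f := fun m : ℕ => ρ.real (E 0) * (1 / 2) ^ m)
    (x := atTop) ?_ fun m => ?_) measureReal_nonneg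
  · simpa using (tendsto_pow_atTop_nhds_zero_of_lt_one (r := (1 / 2 : ℝ)) (by norm_num)
      (by norm_num)).const_mul (ρ.real (E 0))
  · exact le_trans (measureReal_mono (s₂ := E m) (fun s hs n _ => hs n) (hfin _)) (hpow m)

theorem cov_sym {ι : Type} (h : Cov G μ ι) : Cov (∀ n, Equiv.Perm (Fin n)) ρ ι := by
  classical
  obtain ⟨C, hC, h0, a, ha⟩ := h
  obtain ⟨W₀, hW₀c, hW₀⟩ := exists_compact_mem_nhds (1 : G)
  obtain ⟨st, hst0, hst⟩ := exists_seq (σ := Set G × Finset G × ℕ)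
    (fun s => s.1 ∈ 𝓝 (1 : G) ∧ IsCompact s.1)
    (fun _ s s' => s.2.2 < s'.2.2 ∧ ∃ x : ℕ → G, (∀ i, ∀ w ∈ s'.1, x i * w ∈ s.1) ∧
      (∀ t ∈ s.2.1, ∀ i, t * x i ∈ s'.2.1) ∧ ∀ a : G, (Finset.univ.filter fun i : Fin s'.2.2 =>
          ∃ t ∈ s.2.1, ∃ w ∈ s'.1, a⁻¹ * (t * x i * w) ∈ C).card ≤ s'.2.2 / 2)
    (fun _ s hs => by
      obtain ⟨W', D', b, h1, h2, h3⟩ := sym_step μ hC h0 hs.1 s.2.1 s.2.2
      exact ⟨(W', D', b), ⟨h1, h2⟩, by convert h3⟩)
    (W₀, {1}, 0) ⟨hW₀, hW₀c⟩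
  have hP := fun n => (hst n).1
  have hlt := fun n => (hst n).2.1
  choose x h1 h2 h3 using fun n => (hst n).2.2
  let b : ℕ → ℕ := fun n => (st (n + 1)).2.2
  have hb : StrictMono b := strictMono_nat_of_lt_succ fun n => hlt (n + 1)
  have hb0 : ∀ n, 0 < b n := fun n => (Nat.zero_le _).trans_lt (hlt n)
  obtain ⟨hc, hnull⟩ := half_null ρ b hb.injective hb0
  have hσ : ∀ (g : G) (k : ℕ), ∃ σ : Equiv.Perm (Fin k), ∀ i : Fin k,
      (∃ n, b n = k ∧ ∃ t ∈ (st n).2.1, ∃ w ∈ (st (n + 1)).1, g⁻¹ * (t * x n i * w) ∈ C) →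
        (σ⁻¹ i).val < k / 2 := by
    intro g k
    by_cases hk : ∃ n, b n = k
    · obtain ⟨n, rfl⟩ := hk
      obtain ⟨σ, hσ⟩ := exists_perm_half (b n) _ (h3 n g)
      refine ⟨σ, fun i ⟨n', hn', h⟩ => hσ i ?_⟩
      rw [hb.injective hn'] at h
      exact Finset.mem_filter.2 ⟨Finset.mem_univ _, h⟩
    · exact ⟨1, fun i ⟨n, hn, _⟩ => absurd ⟨n, hn⟩ hk⟩
  choose σ hσ using hσ
  refine ⟨_, hc, hnull, fun j => σ (a j), fun s => ?_⟩
  let u : ℕ → G := fun n => x n (s (b n) ⟨0, hb0 n⟩)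
  obtain ⟨y, hy⟩ := exists_limit (fun n => (st n).1) (fun n => (hP n).2)
    (fun n => ⟨1, mem_of_mem_nhds (hP n).1⟩) u (fun n => h1 n _)
  have hD : ∀ n, pp u n ∈ (st n).2.1 := by
    intro n
    induction n with
    | zero => rw [hst0]; simp [pp]
    | succ n ih => exact h2 n _ ih _
  obtain ⟨j, hj⟩ := ha y
  refine ⟨j, fun n => hσ (a j) (b n) _ ⟨n, rfl, _, hD n, _, hy (n + 1), ?_⟩⟩
  convert hj using 2
  simp only [pp, u]; group

end

end Pool.Agent.Lib.MP_390819_lc
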