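import Pool.Agent.Lib.MP_390819_lc.Upper

set_option linter.unusedSectionVars false
set_option linter.overlappingInstances false

open MeasureTheory Set Filter Topology
open scoped Pointwise ENNReal

namespace Pool.Agent.Lib.MP_390819_lc

theorem digits_aux {Γ : Type} [AddCommGroup Γ] (s : Finset Γ) : ∀ η : ℝ, 0 < η →
    ∃ (c : ℝ) (w : Γ → ℕ) (φ : ℕ → Γ) (J : ℕ → Prop) (_ : DecidablePred J), 0 ≤ c ∧
      (∀ n, (((Finset.range n).filter J).card : ℝ) ≤ η * n + c) ∧
      ∀ j, ¬ J j → ∀ a ∈ s, φ (j + w a) = φ j + a := by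
  classical
  induction s using Finset.induction_on with
  | empty =>
    intro η hη
    exact ⟨0, fun _ => 0, fun _ => 0, fun _ => False, inferInstance, le_rfl,
      fun n => by simp; positivity, by simp⟩
  | insert a s has ih =>
    intro η hη
    obtain ⟨c, w, φ, J, _, hc, hJ, hφ⟩ := ih (η / 2) (by positivity)
    obtain ⟨L, hL⟩ := exists_nat_gt (2 / η)
    have hL0' : (0 : ℝ) < L := lt_trans (by positivity) hL
    have hL0 : 0 < L := by exact_mod_cast hL0'
    refine ⟨L * (η / 2 + c) + 1, fun b => if b = a then 1 else L * w b,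
      fun j => φ (j / L) + (j % L) • a, fun j => J (j / L) ∨ j % L = L - 1, inferInstance,
      by positivity, fun n => ?_, ?_⟩
    · rw [Finset.filter_or]
      have hdiv : ((n / L : ℕ) : ℝ) ≤ n / L := Nat.cast_div_le
      have h1 : ((Finset.range n).filter fun j => J (j / L)).card ≤
          L * ((Finset.range (n / L + 1)).filter J).card := by
        refine Finset.card_le_mul_card_image_of_maps_to (f := fun j => j / L) ?_ L ?_
        · intro j hj
          simp only [Finset.mem_filter, Finset.mem_range] at hj ⊢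
          exact ⟨Nat.lt_succ_of_le (Nat.div_le_div_right hj.1.le), hj.2⟩
        · intro b _
          refine le_trans (Finset.card_le_card (t := Finset.Ico (L * b) (L * b + L)) ?_) (by simp)
          intro j hj
          simp only [Finset.mem_filter, Finset.mem_Ico] at hj ⊢
          have := Nat.div_add_mod j L
          have := Nat.mod_lt j hL0
          rw [← hj.2]; omega
      have h2 : ((Finset.range n).filter fun j => j % L = L - 1).card ≤ n / L + 1 := by
        refine le_trans (Finset.card_le_card_of_injOn (t := Finset.range (n / L + 1))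
          (fun j => j / L) ?_ ?_) (by simp)
        · intro j hj
          simp only [Finset.coe_filter, Finset.mem_range, mem_ofPred_eq, Finset.coe_range,
            mem_Iio] at hj ⊢
          exact Nat.lt_succ_of_le (Nat.div_le_div_right hj.1.le)
        · intro j hj j' hj' h
          simp only [Finset.coe_filter, mem_ofPred_eq] at hj hj' h
          rw [← Nat.div_add_mod j L, ← Nat.div_add_mod j' L, h, hj.2, hj'.2]
      have h3 := hJ (n / L + 1)
      have h4 : ((((Finset.range n).filter fun j => J (j / L)) ∪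
          ((Finset.range n).filter fun j => j % L = L - 1)).card : ℝ) ≤
          L * ((Finset.range (n / L + 1)).filter J).card + ((n / L : ℕ) + 1) := by
        exact_mod_cast (Finset.card_union_le _ _).trans (add_le_add h1 h2)
      refine h4.trans ?_
      have h5 : (L : ℝ) * ((n / L : ℕ) : ℝ) ≤ n := by
        rw [le_div_iff₀ hL0'] at hdiv; linarith
      have h6 : ((n / L : ℕ) : ℝ) ≤ η / 2 * n := by
        refine hdiv.trans ?_
        rw [div_le_iff₀ hL0']
        rw [div_lt_iff₀ hη] at hL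
        have : (0 : ℝ) ≤ n := by positivity
        nlinarith
      push_cast at h3
      have h7 := mul_le_mul_of_nonneg_left h3 hL0'.le
      nlinarith
    · intro j hj b hb
      push Not at hj
      by_cases hba : b = a
      · subst hba
        have h1 : j % L + 1 < L := by have := Nat.mod_lt j hL0; omega
        have h2 : j + 1 = L * (j / L) + (j % L + 1) := by have := Nat.div_add_mod j L; omega
        have h3 : (j + 1) / L = j / L := by
          rw [h2, Nat.mul_add_div hL0, Nat.div_eq_of_lt h1]; simp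
        have h4 : (j + 1) % L = j % L + 1 := by
          rw [h2, Nat.mul_add_mod, Nat.mod_eq_of_lt h1]
        simp only [if_true, h3, h4, add_nsmul, one_nsmul, add_assoc]
      · simp only [if_neg hba, Nat.add_mul_div_left _ _ hL0, Nat.add_mul_mod_self_left]
        rw [hφ _ hj.1 b (by simpa [hba] using hb)]; abel

section
variable {G : Type} [Group G] [TopologicalSpace G] [IsTopologicalGroup G]
  [LocallyCompactSpace G] [T2Space G] [MeasurableSpace G] [BorelSpace G]
  (μ : Measure G) [μ.IsHaarMeasure] [μ.Regular]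

theorem markers (g : G) (M : ℕ) (hg : ∀ j, 0 < j → j < M → g ^ j ≠ 1) {W : Set G}
    (hW : IsCompact W) : ∃ B : Set G, MeasurableSet B ∧ B ⊆ W ∧
      (∀ y ∈ B, ∀ j, 0 < j → j < M → g ^ j * y ∉ B) ∧
      ∀ y ∈ W, y ∈ B ∨ ∃ j, j < M ∧ (g ^ j * y ∈ B ∨ (g ^ j)⁻¹ * y ∈ B) := by
  classical
  have hloc : ∀ x : G, ∃ O ∈ 𝓝 x, IsOpen O ∧ ∀ y ∈ O, ∀ j, 0 < j → j < M → g ^ j * y ∉ O := by
    intro x
    have h1 : ∀ j : Fin M, ∃ O ∈ 𝓝 x, 0 < j.1 → ∀ y ∈ O, g ^ j.1 * y ∉ O := by
      intro j
      by_cases hj : 0 < j.1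
      · have hne : g ^ j.1 * x ≠ x := fun h => hg j hj j.2 (by simpa using h)
        obtain ⟨U, V, hU, hV, hUV⟩ := t2_separation_nhds hne
        have hc : Continuous fun y => g ^ j.1 * y := by fun_prop
        exact ⟨V ∩ (fun y => g ^ j.1 * y) ⁻¹' U,
          inter_mem hV (hc.continuousAt.preimage_mem_nhds hU),
          fun _ y hy hy' => Set.disjoint_left.1 hUV hy.2 hy'.1⟩
      · exact ⟨univ, univ_mem, fun h => absurd h hj⟩
    choose O hO hO' using h1
    obtain ⟨O', h1, h2, h3⟩ := mem_nhds_iff.1 (iInter_mem.2 hO)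
    exact ⟨O', h2.mem_nhds h3, h2, fun y hy j hj hjM hy' => hO' ⟨j, hjM⟩ hj y
      (mem_iInter.1 (h1 hy) _) (mem_iInter.1 (h1 hy') _)⟩
  choose O hO hOo hO' using hloc
  obtain ⟨s, -, hs⟩ := hW.elim_nhds_subcover O fun x _ => hO x
  have key : ∀ t : Finset G, ∃ B : Set G, MeasurableSet B ∧ B ⊆ W ∧
      (∀ y ∈ B, ∀ j, 0 < j → j < M → g ^ j * y ∉ B) ∧
      ∀ x ∈ t, ∀ y ∈ O x ∩ W, y ∈ B ∨ ∃ j, j < M ∧ (g ^ j * y ∈ B ∨ (g ^ j)⁻¹ * y ∈ B) := by
    intro t
    induction t using Finset.induction_on with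
    | empty => exact ⟨∅, MeasurableSet.empty, empty_subset _, by simp, by simp⟩
    | insert x t hxt ih =>
      obtain ⟨B, hB, hBW, hsep, hcov⟩ := ih
      let N : Set G := ⋃ j : Fin M, ({y | g ^ j.1 * y ∈ B} ∪ {y | (g ^ j.1)⁻¹ * y ∈ B})
      have hN : MeasurableSet N := MeasurableSet.iUnion fun j =>
        (measurable_const_mul _ hB).union (measurable_const_mul _ hB)
      refine ⟨B ∪ ((O x ∩ W) \ N), hB.union (((hOo x).measurableSet.inter hW.measurableSet).diff hN),
        union_subset hBW (sdiff_subset.trans inter_subset_right), ?_, ?_⟩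
      · rintro y (hy | hy) j hj hjM (h | h)
        · exact hsep y hy j hj hjM h
        · exact h.2 (mem_iUnion.2 ⟨⟨j, hjM⟩, Or.inr (by simpa using hy)⟩)
        · exact hy.2 (mem_iUnion.2 ⟨⟨j, hjM⟩, Or.inl h⟩)
        · exact hO' x y hy.1.1 j hj hjM h.1.1
      · intro x' hx' y hy
        rcases Finset.mem_insert.1 hx' with rfl | hx'
        · by_cases hyN : y ∈ N
          · obtain ⟨j, h | h⟩ := mem_iUnion.1 hyN
            · exact Or.inr ⟨j, j.2, Or.inl (Or.inl h)⟩
            · exact Or.inr ⟨j, j.2, Or.inr (Or.inl h)⟩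
          · exact Or.inl (Or.inr ⟨hy, hyN⟩)
        · rcases hcov x' hx' y hy with h | ⟨j, hj, h | h⟩
          · exact Or.inl (Or.inl h)
          · exact Or.inr ⟨j, hj, Or.inl (Or.inl h)⟩
          · exact Or.inr ⟨j, hj, Or.inr (Or.inl h)⟩
  obtain ⟨B, hB, hBW, hsep, hcov⟩ := key s
  refine ⟨B, hB, hBW, hsep, fun y hy => ?_⟩
  obtain ⟨x, hx, hxy⟩ := mem_iUnion₂.1 (hs hy)
  exact hcov x hx y ⟨hxy, hy⟩

theorem gad_of_large_order
    (hG : ∀ M : ℕ, ∀ V ∈ 𝓝 (1 : G), ∃ g ∈ V, ∀ j, 0 < j → j < M → g ^ j ≠ 1)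
    (Γ : Type) [AddCommGroup Γ] [Fintype Γ] : Gad G μ Γ := by
  classical
  intro V hV W hW η hη
  obtain ⟨V₁, hV₁, hV₁c, hV₁i, hV₁V⟩ := exists_nice hV
  have h1 : (1 : G) ∈ V₁ := mem_of_mem_nhds hV₁
  set m := μ.real (V₁ * (V₁ * W)) with hm
  have hm0 : 0 ≤ m := measureReal_nonneg
  obtain ⟨c, w, φ, J, _, hc, hJ, hφ⟩ := digits_aux (Finset.univ : Finset Γ) (η / (4 * (m + 1)))
    (by positivity)
  set w₀ := Finset.univ.sup w with hw₀
  have hw : ∀ a, w a ≤ w₀ := fun a => Finset.le_sup (Finset.mem_univ a)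
  obtain ⟨M, hM⟩ := exists_nat_gt (2 * (w₀ + c) * (m + 1) / η)
  have hM0' : (0 : ℝ) < M := lt_of_le_of_lt (by positivity) hM
  have hM0 : 0 < M := by exact_mod_cast hM0'
  have hV₂ : (⋂ j : Fin (M + w₀ + 1), {g : G | g ^ j.1 ∈ V₁}) ∈ 𝓝 (1 : G) :=
    iInter_mem.2 fun j => (continuous_pow j.1).continuousAt.preimage_mem_nhds (by simpa using hV₁)
  obtain ⟨g, hg, hgo⟩ := hG M _ hV₂
  have hgV : ∀ j, j ≤ M + w₀ → g ^ j ∈ V₁ := fun j hj =>
    mem_iInter.1 hg ⟨j, Nat.lt_succ_of_le hj⟩
  obtain ⟨B, hB, hBW, hsep, hcov⟩ := markers g M hgo (hV₁c.mul hW)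
  have hWf : μ (V₁ * (V₁ * W)) ≠ ⊤ := (hV₁c.mul (hV₁c.mul hW)).measure_lt_top.ne
  have hBf : μ B ≠ ⊤ := measure_ne_top_of_subset hBW (hV₁c.mul hW).measure_lt_top.ne
  have hBm : M * μ.real B ≤ m := by
    have h2 : μ.real (⋃ j ∈ Finset.range M, {y | g ^ j * y ∈ B}) =
        ∑ j ∈ Finset.range M, μ.real {y | g ^ j * y ∈ B} := by
      refine measureReal_biUnion_finset ?_ (fun j _ => measurable_const_mul _ hB)
        (fun j _ => preimage_mul_ne_top μ _ hBf)
      have key : ∀ i j, i < j → j < M → ∀ y, g ^ i * y ∈ B → g ^ j * y ∈ B → False := by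
        intro i j hij hj y hi hj'
        refine hsep _ hi (j - i) (by omega) (by omega) ?_
        rwa [← mul_assoc, ← pow_add, Nat.sub_add_cancel hij.le]
      intro i hi j hj hij
      refine Set.disjoint_left.2 fun y hy hy' => ?_
      simp only [Finset.coe_range, mem_Iio] at hi hj
      rcases lt_or_gt_of_ne hij with h | h
      · exact key i j h hj y hy hy'
      · exact key j i h hi y hy' hy
    simp only [real_preimage_mul, Finset.sum_const, Finset.card_range, nsmul_eq_mul] at h2
    rw [← h2]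
    refine measureReal_mono (iUnion₂_subset fun j hj y hy => ?_) hWf
    exact ⟨(g ^ j)⁻¹, hV₁i _ (hgV j (by have := Finset.mem_range.1 hj; omega)), _, hBW hy, by simp⟩
  let P : G → ℕ → Prop := fun y j => (g ^ j)⁻¹ * y ∈ B ∨ j = 2 * M + w₀
  have hP : ∀ y, ∃ j, P y j := fun y => ⟨_, Or.inr rfl⟩
  have hτ : Measurable fun y => Nat.find (hP y) := measurable_find hP fun k =>
    (measurable_const_mul _ hB).union (MeasurableSet.const _)
  let Z : Set G := (⋃ i ∈ Finset.range w₀, {y | g ^ (i + 1) * y ∈ B}) ∪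
    ⋃ j ∈ (Finset.range (2 * M)).filter J, {y | (g ^ j)⁻¹ * y ∈ B}
  refine ⟨fun a => g ^ w a, fun a => ?_, fun y => φ (Nat.find (hP y)), fun γ => ?_, Z, ?_, ?_,
    ?_, ?_⟩
  · simpa using hV₁V _ (hgV (w a) ((hw a).trans (Nat.le_add_left _ _))) 1 h1 1 h1 1 h1
  · exact hτ (t := φ ⁻¹' {γ}) MeasurableSpace.measurableSet_top
  · exact (Finset.measurableSet_biUnion _ fun j _ => measurable_const_mul _ hB).union
      (Finset.measurableSet_biUnion _ fun j _ => measurable_const_mul _ hB)
  · exact measure_union_ne_top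
      (measure_biUnion_lt_top (Finset.finite_toSet _)
        fun x _ => (preimage_mul_ne_top μ _ hBf).lt_top).ne
      (measure_biUnion_lt_top (Finset.finite_toSet _)
        fun x _ => (preimage_mul_ne_top μ _ hBf).lt_top).ne
  · refine (measureReal_union_le _ _).trans ((add_le_add (measureReal_biUnion_finset_le _ _)
      (measureReal_biUnion_finset_le _ _)).trans ?_)
    simp only [real_preimage_mul, Finset.sum_const, Finset.card_range, nsmul_eq_mul]
    have h2 := mul_le_mul_of_nonneg_right (hJ (2 * M)) (measureReal_nonneg (μ := μ) (s := B))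
    have hb0 : 0 ≤ μ.real B := measureReal_nonneg
    have h3 : (w₀ + c) * μ.real B ≤ η / 2 := by
      rw [div_lt_iff₀ hη] at hM
      refine le_of_mul_le_mul_left ?_ hM0'
      have := mul_le_mul_of_nonneg_left hBm (show (0 : ℝ) ≤ w₀ + c by positivity)
      have : (0 : ℝ) ≤ w₀ + c := by positivity
      nlinarith
    have h4 : η / (4 * (m + 1)) * (2 * M) * μ.real B ≤ η / 2 := by
      have : η / (4 * (m + 1)) * (2 * M) * μ.real B = η / (2 * (m + 1)) * (M * μ.real B) := by
        field_simp; ring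
      rw [this]
      refine (mul_le_mul_of_nonneg_left hBm (by positivity)).trans ?_
      rw [div_mul_eq_mul_div, div_le_iff₀ (by positivity)]
      nlinarith
    push_cast at h2
    nlinarith
  · intro y hy hyZ a
    simp only [Z, mem_union, mem_iUnion, not_or, not_exists] at hyZ
    obtain ⟨j₀, hj₀, hj₀B⟩ : ∃ j, j < 2 * M ∧ (g ^ j)⁻¹ * y ∈ B := by
      rcases hcov ((g ^ M)⁻¹ * y) (mul_mem_mul (hV₁i _ (hgV M (Nat.le_add_right _ _))) hy) with
        h | ⟨j, hj, h | h⟩
      · exact ⟨M, by omega, h⟩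
      · refine ⟨M - j, by omega, ?_⟩
        convert h using 1
        rw [pow_sub _ hj.le]; group
      · refine ⟨M + j, by omega, ?_⟩
        convert h using 1
        rw [pow_add]; group
    have hle : Nat.find (hP y) ≤ j₀ := Nat.find_min' _ (Or.inl hj₀B)
    have hτB : (g ^ Nat.find (hP y))⁻¹ * y ∈ B :=
      (Nat.find_spec (hP y)).resolve_right (by omega)
    have hnJ : ¬ J (Nat.find (hP y)) := fun h =>
      hyZ.2 _ (Finset.mem_filter.2 ⟨Finset.mem_range.2 (by omega), h⟩) hτB
    have hfind : Nat.find (hP (g ^ w a * y)) = Nat.find (hP y) + w a := by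
      rw [Nat.find_eq_iff]
      refine ⟨Or.inl ?_, fun n hn => ?_⟩
      · convert hτB using 1
        rw [add_comm, pow_add]; group
      · have := hw a
        rintro (h | h)
        · by_cases hnw : n < w a
          · refine hyZ.1 (w a - n - 1) (Finset.mem_range.2 (by omega)) ?_
            simp only [mem_ofPred_eq]
            convert h using 1
            rw [show w a - n - 1 + 1 = w a - n by omega, pow_sub _ hnw.le]; group
          · refine Nat.find_min (hP y) (m := n - w a) (by omega) (Or.inl ?_)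
            convert h using 1
            rw [pow_sub _ (not_lt.1 hnw)]; group
        · omega
    simp only [hfind]
    exact hφ _ hnJ a (Finset.mem_univ a)

end

end Pool.Agent.Lib.MP_390819_lc
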