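import Pool.Agent.Lib.MP_390819_lc.Defs
import Pool.Agent.Lib.MP_390819_lc.Lower
import Pool.Agent.Lib.MP_390819_lc.Tower
import Pool.Agent.Lib.MP_390819_lc.Profin
import Pool.Agent.Lib.MP_390819_lc.Sos
import Pool.Agent.Lib.MP_390819_lc.Sym

set_option linter.unusedSectionVars false
set_option linter.overlappingInstances false

open MeasureTheory Set Filter Topology Cardinal
open scoped Pointwise ENNReal

namespace Pool.Agent.Lib.MP_390819_lc

theorem covStar_le {G : Type} [Group G] [TopologicalSpace G] [MeasurableSpace G] {μ : Measure G}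
    {ι : Type} (h : Cov G μ ι) : covStar G μ ≤ #ι := by
  obtain ⟨C, hC, h0, a, ha⟩ := h
  refine le_trans (b := #(range a)) (csInf_le' ⟨C, hC, h0, range a, rfl, ?_⟩) mk_range_le
  refine eq_univ_of_forall fun x => ?_
  obtain ⟨i, hi⟩ := ha x
  exact mem_iUnion₂.2 ⟨a i, mem_range_self i, _, hi, by simp⟩

theorem exists_cov_of_cov {G : Type} [Group G] [TopologicalSpace G] [MeasurableSpace G]
    {μ : Measure G} {ι : Type} (h : Cov G μ ι) : ∃ κ : Type, #κ = covStar G μ ∧ Cov G μ κ := by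
  obtain ⟨C, hC, h0, a, ha⟩ := h
  have hne : {κ : Cardinal | ∃ C : Set G, IsCompact C ∧ μ C = 0 ∧
      ∃ A : Set G, Cardinal.mk A = κ ∧ ⋃ a ∈ A, (fun x => a * x) '' C = Set.univ}.Nonempty := by
    refine ⟨_, C, hC, h0, range a, rfl, eq_univ_of_forall fun x => ?_⟩
    obtain ⟨i, hi⟩ := ha x
    exact mem_iUnion₂.2 ⟨a i, mem_range_self i, _, hi, by simp⟩
  obtain ⟨C', hC', h0', A, hA, hcov⟩ := csInf_mem hne
  refine ⟨A, hA, C', hC', h0', Subtype.val, fun x => ?_⟩
  obtain ⟨a, ha, c, hc, rfl⟩ := mem_iUnion₂.1 (hcov.symm.subset (mem_univ x))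
  exact ⟨⟨a, ha⟩, by simpa using hc⟩

section
variable {G : Type} [Group G] [TopologicalSpace G] [IsTopologicalGroup G]

theorem Cov.aleph0_lt [MeasurableSpace G] [BorelSpace G] {μ : Measure G} [μ.IsHaarMeasure]
    {ι : Type} (h : Cov G μ ι) : ℵ₀ < #ι := by
  by_contra hcon
  have : Countable ι := mk_le_aleph0_iff.1 (not_lt.1 hcon)
  obtain ⟨C, -, h0, a, ha⟩ := h
  have h1 : μ (⋃ i, (fun x => (a i)⁻¹ * x) ⁻¹' C) = 0 :=
    measure_iUnion_null fun i => by rw [measure_preimage_mul, h0]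
  rw [eq_univ_of_forall (s := ⋃ i, (fun x => (a i)⁻¹ * x) ⁻¹' C)
    fun x => mem_iUnion.2 (ha x)] at h1
  exact (isOpen_univ.measure_pos μ univ_nonempty).ne' h1

theorem nhds_infinite [T2Space G] [SecondCountableTopology G] [Uncountable G] :
    ∀ U ∈ 𝓝 (1 : G), U.Infinite := by
  intro U hU hf
  have h1 : IsOpen ({1} : Set G) := isOpen_singleton_of_finite_mem_nhds 1 hU hf
  have : DiscreteTopology G := discreteTopology_iff_isOpen_singleton_one.2 h1
  have : Countable G := countable_of_Lindelof_of_discrete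
  exact not_countable this

variable [LocallyCompactSpace G] [T2Space G] [SecondCountableTopology G]
  [MeasurableSpace G] [BorelSpace G] (μ : Measure G) [μ.IsHaarMeasure]

theorem cov_self [Uncountable G] : Cov G μ G := by
  have : (𝓝[≠] (1 : G)).NeBot := by
    rw [← mem_closure_iff_nhdsWithin_neBot, mem_closure_iff_nhds]
    intro U hU
    exact ((nhds_infinite U hU).sdiff (finite_singleton 1)).nonempty
  exact ⟨{1}, isCompact_singleton, measure_singleton 1, id, fun x => ⟨x, by simp⟩⟩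

theorem exists_gad [Uncountable G] [μ.Regular] : ∃ p : ℕ, p.Prime ∧
    ∀ (Γ : Type) [AddCommGroup Γ] [Fintype Γ], (∀ x : Γ, p • x = 0) → Gad G μ Γ := by
  by_cases hG : ∀ M : ℕ, ∀ V ∈ 𝓝 (1 : G), ∃ g ∈ V, ∀ j, 0 < j → j < M → g ^ j ≠ 1
  · exact ⟨2, Nat.prime_two, fun Γ _ _ _ => gad_of_large_order μ hG Γ⟩
  push Not at hG
  obtain ⟨M, V₀, hV₀, h⟩ := hG
  have hexp : ∀ g ∈ V₀, g ^ M.factorial = 1 := by
    intro g hg
    obtain ⟨j, h0, hj, h1⟩ := h g hg
    obtain ⟨c, hc⟩ := Nat.dvd_factorial h0 hj.le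
    rw [hc, pow_mul, h1, one_pow]
  obtain ⟨p, hp, hgood⟩ := exists_good_prime M.factorial_pos hV₀ hexp
    (small_open_subgroups M.factorial_pos hV₀ hexp) nhds_infinite
  exact ⟨p, hp, fun Γ _ _ hΓ => gad_of_good μ hp hgood Γ hΓ⟩

theorem cov_open_subgroup (A : Subgroup G) (hA : IsOpen (A : Set G)) {ι : Type} (h : Cov G μ ι) :
    Cov A (μ.comap Subtype.val) (ℕ × ι) := by
  classical
  obtain ⟨C, hC, h0, a, ha⟩ := h
  obtain ⟨s, -, hs⟩ := exists_net hC (hA.mem_nhds A.one_mem)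
  have hemb : MeasurableEmbedding (Subtype.val : A → G) :=
    MeasurableEmbedding.subtype_coe hA.measurableSet
  have hcl : IsClosedEmbedding (Subtype.val : A → G) :=
    (A.isClosed_of_isOpen hA).isClosedEmbedding_subtypeVal
  obtain ⟨q, hq⟩ : ∃ q : ℕ → G, ∀ x ∈ s, ∃ k, q k = x := by
    obtain ⟨q, hq⟩ := ((s.finite_toSet.insert 1).countable).exists_eq_range (insert_nonempty _ _)
    exact ⟨q, fun x hx => hq.subset (Or.inr hx)⟩
  refine ⟨Subtype.val ⁻¹' ⋃ x ∈ s, {y | x * y ∈ C}, hcl.isCompact_preimage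
    (s.isCompact_biUnion fun x _ => (Homeomorph.mulLeft x).isCompact_preimage.2 hC), ?_,
    fun x => if h : a x.2 * q x.1 ∈ A then ⟨_, h⟩ else 1, fun x => ?_⟩
  · rw [hemb.comap_apply]
    refine measure_mono_null (image_preimage_subset _ _) ?_
    refine (measure_biUnion_null_iff s.countable_toSet).2 fun x _ => ?_
    exact (measure_preimage_mul μ x C).trans h0
  · obtain ⟨i, hi⟩ := ha x
    obtain ⟨z, hz, hz'⟩ := hs _ hi
    obtain ⟨k, rfl⟩ := hq z hz
    have hmem : a i * q k ∈ A := by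
      have := A.mul_mem x.2 (A.inv_mem hz')
      simpa [mul_assoc] using this
    refine ⟨(k, i), mem_iUnion₂.2 ⟨q k, hz, ?_⟩⟩
    simpa [hmem, mul_assoc] using hi

end

theorem sandwich (G H : Type) [Group G] [TopologicalSpace G] [IsTopologicalGroup G]
    [LocallyCompactSpace G] [PolishSpace G] [Uncountable G] [MeasurableSpace G] [BorelSpace G]
    (μ : Measure G) [μ.IsHaarMeasure]
    [Group H] [TopologicalSpace H] [IsTopologicalGroup H]
    [LocallyCompactSpace H] [PolishSpace H] [Uncountable H] [MeasurableSpace H] [BorelSpace H]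
    (ν : Measure H) [ν.IsHaarMeasure]
    (A : Subgroup H) (hA : IsOpen (A : Set H)) (hc : ∀ x ∈ A, ∀ y ∈ A, x * y = y * x)
    [∀ n, TopologicalSpace (Equiv.Perm (Fin n))] [∀ n, DiscreteTopology (Equiv.Perm (Fin n))]
    [MeasurableSpace (∀ n, Equiv.Perm (Fin n))] [BorelSpace (∀ n, Equiv.Perm (Fin n))]
    (ρ : Measure (∀ n, Equiv.Perm (Fin n))) [ρ.IsHaarMeasure] :
    ℵ₀ < covStar (∀ n, Equiv.Perm (Fin n)) ρ ∧
      covStar (∀ n, Equiv.Perm (Fin n)) ρ ≤ covStar G μ ∧ covStar G μ ≤ covStar H ν := by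
  obtain ⟨κ, hκ, hcov⟩ := exists_cov_of_cov (cov_self μ)
  have hsym := cov_sym μ ρ hcov
  refine ⟨?_, hκ ▸ covStar_le hsym, ?_⟩
  · obtain ⟨κ', hκ', h⟩ := exists_cov_of_cov hsym
    exact hκ' ▸ h.aleph0_lt
  · obtain ⟨ι, hι, h⟩ := exists_cov_of_cov (cov_self ν)
    have hinf := h.aleph0_lt
    obtain ⟨p, hp, hgad⟩ := exists_gad μ
    have : Fact (1 < p) := ⟨hp.one_lt⟩
    have : NeZero p := ⟨hp.ne_zero⟩
    have : LocallyCompactSpace A := hA.locallyCompactSpace
    have : SecondCountableTopology A := TopologicalSpace.Subtype.secondCountableTopology _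
    have hemb : IsOpenEmbedding (Subtype.val : A → H) := hA.isOpenEmbedding_subtypeVal
    have : (ν.comap (Subtype.val : A → H)).IsHaarMeasure :=
      Measure.IsHaarMeasure.comap (mH := inferInstance) ν (f := A.subtype) hemb
    let _ : CommGroup A :=
      { (inferInstance : Group A) with mul_comm := fun x y => Subtype.ext (hc x x.2 y y.2) }
    have h1 := sys_of_cov (H := A) (ν.comap Subtype.val) p (cov_open_subgroup ν A hA h)
    have h3 : (0 : ℝ) < 1 / (2 * 3 ^ p) := by positivity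
    have h4 : (1 : ℝ) / (2 * 3 ^ p) ≤ 1 := by
      rw [div_le_one (by positivity)]
      have : (1 : ℝ) ≤ 3 ^ p := one_le_pow₀ (by norm_num)
      linarith
    have h2 := covStar_le (cov_of_sys μ p hgad (by linarith) (by linarith) h1)
    rw [← hι]
    simpa [aleph0_mul_eq hinf.le] using h2

theorem cov_of_cover {G : Type} [Group G] [TopologicalSpace G] [MeasurableSpace G] {μ : Measure G}
    {C A : Set G} (hC : IsCompact C) (h0 : μ C = 0)
    (h : ⋃ a ∈ A, (fun x => a * x) '' C = Set.univ) : Cov G μ A := by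
  refine ⟨C, hC, h0, Subtype.val, fun x => ?_⟩
  obtain ⟨a, ha, c, hc, rfl⟩ := mem_iUnion₂.1 (h.symm.subset (mem_univ x))
  exact ⟨⟨a, ha⟩, by simpa using hc⟩

theorem cover_of_cov {G : Type} [Group G] [TopologicalSpace G] [MeasurableSpace G] {μ : Measure G}
    {ι : Type} (h : Cov G μ ι) {κ : Cardinal} (hκ : #ι ≤ κ) : ∃ C A : Set G, IsCompact C ∧ μ C = 0 ∧
      ⋃ a ∈ A, (fun x => a * x) '' C = Set.univ ∧ #A ≤ κ := by
  obtain ⟨C, hC, h0, a, ha⟩ := h
  refine ⟨C, range a, hC, h0, eq_univ_of_forall fun x => ?_, mk_range_le.trans hκ⟩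
  obtain ⟨i, hi⟩ := ha x
  exact mem_iUnion₂.2 ⟨a i, mem_range_self i, _, hi, by simp⟩

theorem abelian_max (G H : Type) [Group G] [TopologicalSpace G] [IsTopologicalGroup G]
    [LocallyCompactSpace G] [PolishSpace G] [Uncountable G] [MeasurableSpace G] [BorelSpace G]
    (μ : Measure G) [μ.IsHaarMeasure]
    [Group H] [TopologicalSpace H] [IsTopologicalGroup H]
    [LocallyCompactSpace H] [PolishSpace H] [MeasurableSpace H] [BorelSpace H]
    (ν : Measure H) [ν.IsHaarMeasure]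
    (A : Subgroup H) (hA : IsOpen (A : Set H)) (hc : ∀ x ∈ A, ∀ y ∈ A, x * y = y * x)
    {ι : Type} (h : Cov H ν ι) : Cov G μ (ℕ × ℕ × ι) := by
  obtain ⟨p, hp, hgad⟩ := exists_gad μ
  have : Fact (1 < p) := ⟨hp.one_lt⟩
  have : NeZero p := ⟨hp.ne_zero⟩
  have : LocallyCompactSpace A := hA.locallyCompactSpace
  have : SecondCountableTopology A := TopologicalSpace.Subtype.secondCountableTopology _
  have hemb : IsOpenEmbedding (Subtype.val : A → H) := hA.isOpenEmbedding_subtypeVal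
  have : (ν.comap (Subtype.val : A → H)).IsHaarMeasure :=
    Measure.IsHaarMeasure.comap (mH := inferInstance) ν (f := A.subtype) hemb
  let _ : CommGroup A :=
    { (inferInstance : Group A) with mul_comm := fun x y => Subtype.ext (hc x x.2 y y.2) }
  have h1 := sys_of_cov (H := A) (ν.comap Subtype.val) p (cov_open_subgroup ν A hA h)
  have h3 : (0 : ℝ) < 1 / (2 * 3 ^ p) := by positivity
  have h4 : (1 : ℝ) / (2 * 3 ^ p) ≤ 1 := by
    rw [div_le_one (by positivity)]
    have : (1 : ℝ) ≤ 3 ^ p := one_le_pow₀ (by norm_num)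
    linarith
  exact cov_of_sys μ p hgad (by linarith) (by linarith) h1

end Pool.Agent.Lib.MP_390819_lc
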