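import Pool.Agent.Lib.MP_390819_lc.Basic

set_option linter.unusedSectionVars false
set_option linter.overlappingInstances false

open MeasureTheory Set Filter Topology
open scoped Pointwise ENNReal

namespace Pool.Agent.Lib.MP_390819_lc

/-- approximately equivariant `Γ`-valued coordinates along arbitrarily small elements -/
def Gad (G : Type) [Group G] [TopologicalSpace G] [MeasurableSpace G] (μ : Measure G)
    (Γ : Type) [AddCommGroup Γ] : Prop :=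
  ∀ V ∈ 𝓝 (1 : G), ∀ W : Set G, IsCompact W → ∀ η : ℝ, 0 < η →
    ∃ ψ : Γ → G, (∀ a, ψ a ∈ V) ∧ ∃ f : G → Γ, (∀ γ, MeasurableSet (f ⁻¹' {γ})) ∧
      ∃ Z : Set G, MeasurableSet Z ∧ μ Z ≠ ⊤ ∧ μ.real Z ≤ η ∧
        ∀ y ∈ W, y ∉ Z → ∀ a, f (ψ a * y) = f y + a

theorem exists_shift {X Γ : Type} [MeasurableSpace X] (μ : Measure X) [AddCommGroup Γ] [Fintype Γ]
    (f : X → Γ) (hf : ∀ γ, MeasurableSet (f ⁻¹' {γ})) {W : Set X} (hW : MeasurableSet W)
    (hWf : μ W ≠ ⊤) (T : Finset Γ) {θ : ℝ} (hT : (T.card : ℝ) ≤ θ * Fintype.card Γ) :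
    ∃ c : Γ, μ.real (W ∩ {y | f y + c ∈ T}) ≤ θ * μ.real W := by
  classical
  let m : Γ → ℝ := fun γ => μ.real (W ∩ f ⁻¹' {γ})
  have hsum : ∑ γ, m γ = μ.real W := by
    have : W = ⋃ γ ∈ (Finset.univ : Finset Γ), W ∩ f ⁻¹' {γ} := by
      ext x; simp
    conv_rhs => rw [this]
    rw [measureReal_biUnion_finset]
    · intro a _ b _ hab
      refine Set.disjoint_left.2 fun x hx hx' => hab ?_
      exact hx.2.symm.trans hx'.2
    · exact fun b _ => hW.inter (hf b)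
  have h1 : ∀ c, μ.real (W ∩ {y | f y + c ∈ T}) ≤ ∑ t ∈ T, m (t - c) := by
    intro c
    refine le_trans (measureReal_mono (s₂ := ⋃ t ∈ T, W ∩ f ⁻¹' {t - c}) ?_ ?_)
      (measureReal_biUnion_finset_le _ _)
    · intro y hy
      simp only [mem_iUnion]
      exact ⟨f y + c, hy.2, hy.1, by simp⟩
    · exact measure_ne_top_of_subset (iUnion₂_subset fun _ _ => inter_subset_left) hWf
  have h2 : ∑ c : Γ, ∑ t ∈ T, m (t - c) ≤ ∑ _c : Γ, θ * μ.real W := by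
    rw [Finset.sum_comm]
    have : ∀ t ∈ T, ∑ c : Γ, m (t - c) = μ.real W := fun t _ => by
      rw [← hsum]; exact (Equiv.subLeft t).sum_comp m
    rw [Finset.sum_congr rfl this]
    simp only [Finset.sum_const, nsmul_eq_mul, Finset.card_univ]
    rw [← mul_assoc, mul_comm (Fintype.card Γ : ℝ)]
    exact mul_le_mul_of_nonneg_right hT measureReal_nonneg
  obtain ⟨c, -, hc⟩ := Finset.exists_le_of_sum_le Finset.univ_nonempty h2
  exact ⟨c, (h1 c).trans hc⟩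

section
variable {G : Type} [Group G] [TopologicalSpace G] [IsTopologicalGroup G]
  [LocallyCompactSpace G] [T2Space G] [MeasurableSpace G] [BorelSpace G]
  (μ : Measure G) [μ.IsHaarMeasure] [μ.Regular]

theorem stable_gad {Γ : Type} [AddCommGroup Γ] [Fintype Γ] (hG : Gad G μ Γ) (T : Finset Γ)
    {θ : ℝ} (hT : (T.card : ℝ) ≤ θ * Fintype.card Γ) {V : Set G} (hV : V ∈ 𝓝 (1 : G))
    {W : Set G} (hW : IsCompact W) {η : ℝ} (hη : 0 < η) :
    ∃ ψ : Γ → G, (∀ a, ψ a ∈ V) ∧ ∃ (f : G → Γ) (R : Set G), IsCompact R ∧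
      μ.real R ≤ θ * μ.real W + η ∧ ∃ V' ∈ 𝓝 (1 : G),
        ∀ z ∈ W, ∀ a, ∀ h ∈ V', f (h * ψ a * z) - a ∈ T → z ∈ R := by
  classical
  obtain ⟨ψ, hψ, f₀, hf₀, Z, hZ, hZf, hZm, hfZ⟩ := hG V hV W hW (η / 2) (by positivity)
  have hWf : μ W ≠ ⊤ := hW.measure_lt_top.ne
  obtain ⟨c, hc⟩ := exists_shift μ f₀ hf₀ hW.measurableSet hWf T hT
  let A : Γ → Set G := fun γ => (W ∩ f₀ ⁻¹' {γ - c}) \ Z
  have hcard : (0 : ℝ) < Fintype.card Γ := by exact_mod_cast Fintype.card_pos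
  have hK : ∀ γ, ∃ K, K ⊆ A γ ∧ IsCompact K ∧
      μ (A γ \ K) < ENNReal.ofReal (η / 2 / Fintype.card Γ) := fun γ =>
    ((hW.measurableSet.inter (hf₀ _)).diff hZ).exists_isCompact_sdiff_lt
      (measure_ne_top_of_subset (sdiff_subset.trans inter_subset_left) hWf)
      (by simp; positivity)
  choose K hKA hKc hKm using hK
  let L : Γ → Set G := fun β => ⋃ a, (fun y => ψ a * y) '' K (β - a)
  have hLc : ∀ β, IsCompact (L β) := fun β =>
    isCompact_iUnion fun a => (hKc _).image (by fun_prop)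
  have hLf : ∀ β, ∀ x ∈ L β, f₀ x + c = β := by
    intro β x hx
    obtain ⟨a, y, hy, rfl⟩ := mem_iUnion.1 hx
    have h1 := hKA _ hy
    have h2 : f₀ y = β - a - c := h1.1.2
    simp only
    rw [hfZ y h1.1.1 h1.2 a, h2]; abel
  have hsep : ∀ x : Γ × Γ, ∃ U ∈ 𝓝 (1 : G), x.1 ≠ x.2 → U * L x.1 ⊆ (L x.2)ᶜ := by
    rintro ⟨β, β'⟩
    by_cases h : β = β'
    · exact ⟨univ, univ_mem, fun h' => absurd h h'⟩
    · obtain ⟨U, hU, h'⟩ := compact_open_separated_mul_left (hLc β) (hLc β').isClosed.isOpen_compl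
        (fun x hx hx' => h ((hLf β x hx).symm.trans (hLf β' x hx')))
      exact ⟨U, hU, fun _ => h'⟩
  choose U hU hUL using hsep
  obtain ⟨V₃, hV₃, -, hV₃i, hV₃U⟩ := exists_nice (iInter_mem.2 hU)
  let P : G → Γ → Prop := fun x β => ∃ v ∈ V₃, ∃ v' ∈ V₃, ∃ l ∈ L β, x = v * v' * l
  have hPu : ∀ x β β', P x β → P x β' → β = β' := by
    rintro x β β' ⟨v, hv, v', hv', l, hl, rfl⟩ ⟨w, hw, w', hw', l', hl', h⟩
    by_contra hne
    refine hUL (β, β') hne (mul_mem_mul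
      (mem_iInter.1 (hV₃U _ (hV₃i _ hw') _ (hV₃i _ hw) v hv v' hv') (β, β')) hl) ?_
    have : w'⁻¹ * w⁻¹ * v * v' * l = l' := by
      rw [mul_assoc, mul_assoc, ← mul_assoc v, h]; group
    rw [this]; exact hl'
  obtain ⟨O, hOs, hOo, hO1⟩ := mem_nhds_iff.1
    (iInter_mem.2 fun a : Γ => conj_nhds (ψ a) hV₃)
  let K' : Set G := ⋃ γ ∈ Finset.univ.filter (fun γ => γ ∉ T), K γ
  refine ⟨ψ, hψ, fun x => if h : ∃ β, P x β then h.choose else 0, W \ (O * K'),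
    hW.diff hOo.mul_right, ?_, V₃, hV₃, ?_⟩
  · have hsub : W \ (O * K') ⊆ (W ∩ {y | f₀ y + c ∈ T}) ∪ (Z ∪ ⋃ γ ∈ (Finset.univ : Finset Γ),
        A γ \ K γ) := by
      intro y hy
      by_cases h1 : f₀ y + c ∈ T
      · exact Or.inl ⟨hy.1, h1⟩
      by_cases h2 : y ∈ Z
      · exact Or.inr (Or.inl h2)
      refine Or.inr (Or.inr (mem_iUnion₂.2 ⟨f₀ y + c, Finset.mem_univ _, ⟨⟨hy.1, by simp⟩, h2⟩,
        fun h3 => hy.2 ⟨1, hO1, y, mem_iUnion₂.2 ⟨f₀ y + c, by simpa using h1, h3⟩, by simp⟩⟩))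
    have hfin : μ (⋃ γ ∈ (Finset.univ : Finset Γ), A γ \ K γ) ≠ ⊤ :=
      measure_ne_top_of_subset (iUnion₂_subset fun _ _ =>
        sdiff_subset.trans (sdiff_subset.trans inter_subset_left)) hWf
    refine (measureReal_mono hsub (measure_union_ne_top
      (measure_ne_top_of_subset inter_subset_left hWf) (measure_union_ne_top hZf hfin))).trans ?_
    refine (measureReal_union_le _ _).trans (add_le_add hc ((measureReal_union_le _ _).trans ?_))
    have : μ.real (⋃ γ ∈ (Finset.univ : Finset Γ), A γ \ K γ) ≤ η / 2 := by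
      refine (measureReal_biUnion_finset_le _ _).trans ?_
      refine (Finset.sum_le_sum (g := fun _ => η / 2 / Fintype.card Γ) fun γ _ =>
        ENNReal.toReal_le_of_le_ofReal (by positivity) (hKm γ).le).trans ?_
      simp only [Finset.sum_const, Finset.card_univ, nsmul_eq_mul]
      rw [mul_div_cancel₀ _ hcard.ne']
    linarith
  · intro z hz a h hh hT'
    refine ⟨hz, ?_⟩
    rintro ⟨o, ho, y, hy, rfl⟩
    obtain ⟨γ, hγ, hyγ⟩ := mem_iUnion₂.1 hy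
    have hP : P (h * ψ a * (o * y)) (γ + a) :=
      ⟨h, hh, ψ a * o * (ψ a)⁻¹, mem_iInter.1 (hOs ho) a, ψ a * y,
        mem_iUnion.2 ⟨a, y, by simpa using hyγ, rfl⟩, by group⟩
    have hex : ∃ β, P (h * ψ a * (o * y)) β := ⟨_, hP⟩
    simp only [dif_pos hex] at hT'
    rw [hPu _ _ _ hex.choose_spec hP] at hT'
    simp at hγ hT'
    exact hγ hT'

theorem upper_step (p : ℕ)
    (hG : ∀ (Γ : Type) [AddCommGroup Γ] [Fintype Γ], (∀ x : Γ, p • x = 0) → Gad G μ Γ)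
    {θ : ℝ} (hθ0 : 0 ≤ θ) (hθ : θ < 1) (Γ : ℕ → Type) [∀ l, AddCommGroup (Γ l)]
    [∀ l, Fintype (Γ l)] (hp : ∀ l (x : Γ l), p • x = 0) (T : ∀ l, Finset (Γ l))
    (hT : ∀ l, ((T l).card : ℝ) ≤ θ * Fintype.card (Γ l)) {X : Set G} (hX : IsCompact X)
    {W : Set G} (hW : W ∈ 𝓝 (1 : G)) (hWc : IsCompact W) (D : Finset G) {η : ℝ} (hη : 0 < η) :
    ∃ (W' : Set G) (D' : Finset G), W' ∈ 𝓝 (1 : G) ∧ IsCompact W' ∧
      ∃ (ψ : (∀ l, Γ l) → G) (f : G → ∀ l, Γ l) (R : Set G), IsCompact R ∧ μ.real R ≤ η ∧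
        (∀ a, ∀ w ∈ W', (ψ a)⁻¹ * w ∈ W) ∧ (∀ t ∈ D, ∀ a, t * (ψ a)⁻¹ ∈ D') ∧
        ∀ x ∈ X, ∀ a, ∀ t ∈ D, ∀ w ∈ W', (∀ l, f x l - a l ∈ T l) →
          t * (ψ a)⁻¹ * w * x ∈ R := by
  classical
  obtain ⟨V, hV, -, hVi, hVW⟩ := exists_nice hW
  have h1 : (1 : G) ∈ V := mem_of_mem_nhds hV
  set ε := η / (2 * (D.card + 1)) with hε
  have hε0 : 0 < ε := by positivity
  obtain ⟨L, hL⟩ := exists_pow_lt_of_lt_one
    (x := ε / (μ.real (W * X) + 1)) (div_pos hε0 (by positivity)) hθ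
  let T' : Finset (∀ l : Fin L, Γ l) := Fintype.piFinset fun l => T l
  have hT' : (T'.card : ℝ) ≤ θ ^ L * Fintype.card (∀ l : Fin L, Γ l) := by
    simp only [T', Fintype.card_piFinset, Fintype.card_pi]
    push_cast
    refine (Finset.prod_le_prod (g := fun l : Fin L => θ * Fintype.card (Γ l))
      (fun _ _ => by positivity) fun l _ => hT l).trans ?_
    rw [Finset.prod_mul_distrib]; simp
  obtain ⟨ψ, hψ, f, R, hRc, hRm, V', hV', hR⟩ := stable_gad μ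
    (hG (∀ l : Fin L, Γ l) (fun x => by ext l; exact hp l (x l))) T' hT' hV (hWc.mul hX) hε0
  obtain ⟨W', hW', hW'c, hW'i, hW'V⟩ := exists_nice (inter_mem hV hV')
  have h1' : (1 : G) ∈ W' := mem_of_mem_nhds hW'
  have hsub : ∀ w ∈ W', w ∈ V ∩ V' := fun w hw => by simpa using hW'V w hw 1 h1' 1 h1' 1 h1'
  have hin : ∀ a, ∀ w ∈ W', (ψ a)⁻¹ * w ∈ W := fun a w hw => by
    simpa using hVW _ (hVi _ (hψ a)) w (hsub w hw).1 1 h1 1 h1
  refine ⟨W', (D ×ˢ Finset.univ).image fun x : G × (∀ l : Fin L, Γ l) => x.1 * (ψ x.2)⁻¹,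
    hW', hW'c, fun a => ψ fun l => a l,
    fun x l => if h : l < L then f x ⟨l, h⟩ else 0, ⋃ t ∈ D, {y | t⁻¹ * y ∈ R}, ?_, ?_,
    fun a => hin _, ?_, ?_⟩
  · refine D.isCompact_biUnion fun t _ => ?_
    exact (Homeomorph.mulLeft t⁻¹).isCompact_preimage.2 hRc
  · refine (measureReal_biUnion_finset_le _ _).trans ?_
    simp only [real_preimage_mul, Finset.sum_const, nsmul_eq_mul]
    have h2 : θ ^ L * μ.real (W * X) ≤ ε := by
      rw [lt_div_iff₀ (by positivity)] at hL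
      nlinarith [pow_nonneg hθ0 L]
    have h3 : μ.real R ≤ 2 * ε := by linarith
    refine (mul_le_mul_of_nonneg_left h3 (by positivity)).trans ?_
    rw [hε, mul_div_assoc', mul_div_assoc', div_le_iff₀ (by positivity)]
    nlinarith
  · intro t ht a
    exact Finset.mem_image.2 ⟨(t, fun l => a l), by simp [ht], rfl⟩
  · intro x hx a t ht w hw hTa
    refine mem_iUnion₂.2 ⟨t, ht, ?_⟩
    have := hR ((ψ fun l => a l)⁻¹ * w * x) (mul_mem_mul (hin _ w hw) hx) (fun l => a l) w⁻¹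
      (hsub _ (hW'i w hw)).2 (by
        have e : w⁻¹ * (ψ fun l => a l) * ((ψ fun l => a l)⁻¹ * w * x) = x := by group
        rw [e]
        refine Fintype.mem_piFinset.2 fun l => ?_
        simpa using hTa l)
    simp only [mem_ofPred_eq]
    convert this using 1; group

theorem cov_of_sys [SecondCountableTopology G] (p : ℕ)
    (hG : ∀ (Γ : Type) [AddCommGroup Γ] [Fintype Γ], (∀ x : Γ, p • x = 0) → Gad G μ Γ)
    {θ : ℝ} (hθ0 : 0 ≤ θ) (hθ : θ < 1) {ι : Type} (h : Sys p θ ι) : Cov G μ (ℕ × ι) := by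
  classical
  obtain ⟨Γ, _, _, T, A, hp, hT, hA⟩ := h
  obtain ⟨X, hXc, hX⟩ := exists_compact_mem_nhds (1 : G)
  obtain ⟨st, hst0, hst⟩ := exists_seq (σ := Set G × Finset G)
    (fun s => s.1 ∈ 𝓝 (1 : G) ∧ IsCompact s.1)
    (fun n s s' => ∃ (ψ : (∀ l, Γ (Nat.pairEquiv (n, l))) → G)
      (f : G → ∀ l, Γ (Nat.pairEquiv (n, l))) (R : Set G), IsCompact R ∧
        μ.real R ≤ 1 / (n + 1) ∧
        (∀ a, ∀ w ∈ s'.1, (ψ a)⁻¹ * w ∈ s.1) ∧ (∀ t ∈ s.2, ∀ a, t * (ψ a)⁻¹ ∈ s'.2) ∧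
        ∀ x ∈ X, ∀ a, ∀ t ∈ s.2, ∀ w ∈ s'.1,
          (∀ l, f x l - a l ∈ T (Nat.pairEquiv (n, l))) → t * (ψ a)⁻¹ * w * x ∈ R)
    (fun n s hs => by
      obtain ⟨W', D', h1, h2, h3⟩ := upper_step μ p hG hθ0 hθ (fun l => Γ (Nat.pairEquiv (n, l)))
        (fun l => hp _) (fun l => T _) (fun l => hT _) hXc hs.1 hs.2 s.2
        (η := 1 / (n + 1)) (by positivity)
      exact ⟨(W', D'), ⟨h1, h2⟩, h3⟩)
    (X, {1}) ⟨hX, hXc⟩
  have hP := fun n => (hst n).1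
  choose ψ f R hRc hRm h1 h2 h3 using fun n => (hst n).2
  let u : ι → ℕ → G := fun j n => (ψ n fun l => A j _)⁻¹
  have hβ : ∀ j, ∃ β : G, ∀ n, (pp (u j) n)⁻¹ * β ∈ (st n).1 := fun j =>
    exists_limit (fun n => (st n).1) (fun n => (hP n).2)
      (fun n => ⟨1, mem_of_mem_nhds (hP n).1⟩) (u j) (fun n => h1 n _)
  choose β hβ using hβ
  have hD : ∀ j n, pp (u j) n ∈ (st n).2 := by
    intro j n
    induction n with
    | zero => rw [hst0]; simp [pp]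
    | succ n ih => exact h2 n _ ih _
  obtain ⟨q, hq⟩ : ∃ q : ℕ → G, ∀ x, ∃ k, (q k)⁻¹ * x ∈ X := by
    obtain ⟨s, hsc, hs⟩ := TopologicalSpace.countable_cover_nhds
      (f := fun x : G => (fun y => x⁻¹ * y) ⁻¹' X)
      (fun x => (continuous_const.mul continuous_id).continuousAt.preimage_mem_nhds
        (by simpa using hX))
    have hne : s.Nonempty := by
      by_contra h
      rw [not_nonempty_iff_eq_empty] at h
      simpa [h] using hs.symm.subset (mem_univ (1 : G))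
    obtain ⟨q, rfl⟩ := hsc.exists_eq_range hne
    exact ⟨q, fun x => by simpa using hs.symm.subset (mem_univ x)⟩
  refine ⟨⋂ n, R n, (hRc 0).of_isClosed_subset (isClosed_iInter fun n => (hRc n).isClosed)
    (iInter_subset _ 0), ?_, fun x => q x.1 * (β x.2)⁻¹, fun x => ?_⟩
  · have hf : μ (⋂ n, R n) ≠ ⊤ :=
      measure_ne_top_of_subset (iInter_subset _ 0) (hRc 0).measure_lt_top.ne
    rw [← measureReal_eq_zero_iff hf]
    refine le_antisymm (ge_of_tendsto' tendsto_one_div_add_atTop_nhds_zero_nat fun n => ?_)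
      measureReal_nonneg
    exact (measureReal_mono (iInter_subset _ n) (hRc n).measure_lt_top.ne).trans (hRm n)
  · obtain ⟨k, hk⟩ := hq x
    obtain ⟨j, hj⟩ := hA (Equiv.piCongrLeft Γ Nat.pairEquiv
      fun x' => f x'.1 ((q k)⁻¹ * x) x'.2)
    refine ⟨(k, j), mem_iInter.2 fun n => ?_⟩
    have := h3 n _ hk (fun l => A j _) _ (hD j n) _ (hβ j (n + 1)) (fun l => by
      have := hj (Nat.pairEquiv (n, l))
      rwa [Equiv.piCongrLeft_apply_apply] at this)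
    convert this using 1
    simp only [pp, u]; group

end

end Pool.Agent.Lib.MP_390819_lc
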